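import Mathlib

/-!
# Online scheduling with rejection: basic definitions

Identical machines, jobs `(t, p)` with running time `t` and rejection penalty `p`, deterministic
online algorithms, competitive ratio in general and on instances all of whose running times
are one.  The definitions and the elementary lemmas are those of the library module
`Pool.Graph.R_seed8.Results.MP_0ea0cb_lc.PolynomialGap`, restated for unit-time instances.
-/

set_option autoImplicit false

namespace Pool.Agent.H704.Rej

/-- A job: running time `t > 0` and rejection penalty `p > 0`. -/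
structure Job where
  t : ℝ
  p : ℝ
  t_pos : 0 < t
  p_pos : 0 < p

/-- An outcome for the job sequence `σ` on `m` machines: every job is rejected (`none`) or
assigned to one machine. -/
abbrev Sched (m : ℕ) (σ : List Job) : Type := Fin σ.length → Option (Fin m)

/-- The load of machine `k`. -/
noncomputable def load {m : ℕ} (σ : List Job) (s : Sched m σ) (k : Fin m) : ℝ :=
  ∑ i, if s i = some k then (σ.get i).t else 0

/-- The cost of an outcome: the maximum machine load plus the penalties of the rejected jobs. -/
noncomputable def cost {m : ℕ} (σ : List Job) (s : Sched m σ) : ℝ :=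
  (⨆ k, load σ s k) + ∑ i, if s i = none then (σ.get i).p else 0

/-- The offline optimum on `m` machines. -/
noncomputable def opt (m : ℕ) (σ : List Job) : ℝ := ⨅ s : Sched m σ, cost σ s

/-- A deterministic online algorithm on `m` machines: a decision for the current job (second
argument) that may depend on the previous jobs (first argument). -/
abbrev Alg (m : ℕ) : Type := List Job → Job → Option (Fin m)

/-- The outcome produced by an online algorithm on the sequence `σ`. -/
def Alg.sched {m : ℕ} (A : Alg m) (σ : List Job) : Sched m σ :=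
  fun i => A (σ.take i) (σ.get i)
/-- Some deterministic online algorithm on `m` machines is `c`-competitive. -/
def Competitive (m : ℕ) (c : ℝ) : Prop :=
  ∃ A : Alg m, ∀ σ : List Job, cost σ (Alg.sched A σ) ≤ c * opt m σ

/-- The deterministic competitive ratio `R(m)`. -/
noncomputable def R (m : ℕ) : ℝ := sInf {c : ℝ | Competitive m c}

/-- All running times are one. -/
def Unit1 (σ : List Job) : Prop := ∀ j ∈ σ, j.t = 1

/-- Some deterministic online algorithm on `m` machines is `c`-competitive on all sequences
whose running times are all one. -/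
def UnitCompetitive (m : ℕ) (c : ℝ) : Prop :=
  ∃ A : Alg m, ∀ σ : List Job, Unit1 σ → cost σ (Alg.sched A σ) ≤ c * opt m σ

/-- The deterministic competitive ratio for unit running times. -/
noncomputable def Runit (m : ℕ) : ℝ := sInf {c : ℝ | UnitCompetitive m c}

section Basics

variable {m : ℕ}

/-- Sum over the jobs of a sequence, with access to the previous jobs. -/
def T {M : Type} [AddCommMonoid M] (F : List Job → Job → M) (σ : List Job) : M :=
  ∑ i : Fin σ.length, F (σ.take i) (σ.get i)

lemma T_nil {M : Type} [AddCommMonoid M] (F : List Job → Job → M) : T F [] = 0 := by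
  simp [T]

lemma T_concat {M : Type} [AddCommMonoid M] (F : List Job → Job → M) (σ : List Job) (j : Job) :
    T F (σ ++ [j]) = T F σ + F σ j := by
  unfold T
  have h : (σ ++ [j]).length = σ.length + 1 := by simp
  rw [Fintype.sum_equiv (finCongr h) _
    (fun i : Fin (σ.length + 1) => F ((σ ++ [j]).take i) ((σ ++ [j]).get ((finCongr h).symm i)))
    (by intro i; simp)]
  rw [Fin.sum_univ_castSucc]
  congr 1
  · apply Finset.sum_congr rfl
    intro i _
    have hi : (i : ℕ) ≤ σ.length := i.2.le
    simp [List.take_append_of_le_length hi]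
  · simp

lemma load_eq (A : Alg m) (σ : List Job) (k : Fin m) :
    load σ (Alg.sched A σ) k = T (fun h j => if A h j = some k then j.t else 0) σ := rfl

/-- Penalty paid by the algorithm. -/
noncomputable def pen (A : Alg m) (σ : List Job) : ℝ :=
  T (fun h j => if A h j = none then j.p else 0) σ

lemma cost_eq (A : Alg m) (σ : List Job) :
    cost σ (Alg.sched A σ) = (⨆ k, load σ (Alg.sched A σ) k) + pen A σ := rfl

lemma load_nonneg (σ : List Job) (s : Sched m σ) (k : Fin m) : 0 ≤ load σ s k := by
  unfold load
  apply Finset.sum_nonneg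
  intro i _
  split_ifs
  · exact (σ.get i).t_pos.le
  · exact le_refl _

lemma load_le_sup (σ : List Job) (s : Sched m σ) (k : Fin m) :
    load σ s k ≤ ⨆ k, load σ s k :=
  le_ciSup (Finite.bddAbove_range _) k

lemma sup_nonneg (σ : List Job) (s : Sched m σ) : 0 ≤ ⨆ k, load σ s k :=
  Real.iSup_nonneg fun k => load_nonneg σ s k

lemma penS_nonneg (σ : List Job) (s : Sched m σ) :
    0 ≤ ∑ i, if s i = none then (σ.get i).p else 0 := by
  apply Finset.sum_nonneg
  intro i _
  split_ifs
  · exact (σ.get i).p_pos.le
  · exact le_refl _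

lemma cost_nonneg (σ : List Job) (s : Sched m σ) : 0 ≤ cost σ s :=
  add_nonneg (sup_nonneg σ s) (penS_nonneg σ s)

lemma opt_le (σ : List Job) (s : Sched m σ) : opt m σ ≤ cost σ s :=
  ciInf_le ⟨0, by rintro _ ⟨s, rfl⟩; exact cost_nonneg σ s⟩ s

lemma le_opt (σ : List Job) (x : ℝ) (h : ∀ s : Sched m σ, x ≤ cost σ s) : x ≤ opt m σ :=
  le_ciInf h

lemma opt_nonneg (σ : List Job) : 0 ≤ opt m σ := le_opt σ 0 fun s => cost_nonneg σ s

end Basics

section Lower

variable {m : ℕ}

/-- Number of accepted jobs. -/
noncomputable def nA (A : Alg m) (σ : List Job) : ℕ :=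
  T (fun h j => if A h j = none then 0 else 1) σ

/-- Number of rejected jobs. -/
noncomputable def nR (A : Alg m) (σ : List Job) : ℕ :=
  T (fun h j => if A h j = none then 1 else 0) σ

/-- Number of jobs on machine `k`. -/
noncomputable def cnt (A : Alg m) (k : Fin m) (σ : List Job) : ℕ :=
  T (fun h j => if A h j = some k then 1 else 0) σ

lemma pen_concat (A : Alg m) (σ : List Job) (j : Job) :
    pen A (σ ++ [j]) = pen A σ + (if A σ j = none then j.p else 0) := T_concat _ _ _

lemma nA_concat (A : Alg m) (σ : List Job) (j : Job) :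
    nA A (σ ++ [j]) = nA A σ + (if A σ j = none then 0 else 1) := T_concat _ _ _

lemma nR_concat (A : Alg m) (σ : List Job) (j : Job) :
    nR A (σ ++ [j]) = nR A σ + (if A σ j = none then 1 else 0) := T_concat _ _ _

lemma cnt_concat (A : Alg m) (k : Fin m) (σ : List Job) (j : Job) :
    cnt A k (σ ++ [j]) = cnt A k σ + (if A σ j = some k then 1 else 0) := T_concat _ _ _

lemma sum_cnt (A : Alg m) (σ : List Job) : ∑ k, cnt A k σ = nA A σ := by
  induction σ using List.reverseRecOn with
  | nil => simp [cnt, nA, T_nil]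
  | append_singleton σ j ih =>
    simp only [cnt_concat, nA_concat, Finset.sum_add_distrib, ih]
    congr 1
    cases hA : A σ j with
    | none => simp
    | some k => simp

lemma nA_add_nR (A : Alg m) (σ : List Job) : nA A σ + nR A σ = σ.length := by
  induction σ using List.reverseRecOn with
  | nil => simp [nA, nR, T_nil]
  | append_singleton σ j ih =>
    rw [nA_concat, nR_concat, List.length_append, List.length_singleton]
    split_ifs <;> omega
lemma unit_concat {σ : List Job} {j : Job} (h : Unit1 (σ ++ [j])) : Unit1 σ ∧ j.t = 1 :=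
  ⟨fun i hi => h i (by simp [hi]), h j (by simp)⟩

lemma load_cnt (A : Alg m) (k : Fin m) (σ : List Job) (h : Unit1 σ) :
    load σ (Alg.sched A σ) k = (cnt A k σ : ℝ) := by
  rw [load_eq]
  induction σ using List.reverseRecOn with
  | nil => simp [cnt, T_nil]
  | append_singleton σ j ih =>
    obtain ⟨h1, h2⟩ := unit_concat h
    rw [T_concat, ih h1, cnt_concat, h2]
    push_cast
    split_ifs <;> simp

lemma cost_ge_one (A : Alg m) (σ : List Job) (h : Unit1 σ) (h1 : 1 ≤ nA A σ) :
    1 + pen A σ ≤ cost σ (Alg.sched A σ) := by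
  rw [cost_eq]
  have hk : ∃ k, 1 ≤ cnt A k σ := by
    by_contra hcon
    push Not at hcon
    have : ∑ k, cnt A k σ = 0 := Finset.sum_eq_zero fun k _ => by
      have := hcon k
      omega
    rw [sum_cnt] at this
    omega
  obtain ⟨k, hk⟩ := hk
  have h2 := load_le_sup σ (Alg.sched A σ) k
  rw [load_cnt A k σ h] at h2
  have h3 : (1 : ℝ) ≤ (cnt A k σ : ℝ) := by exact_mod_cast hk
  linarith

lemma cost_ge_two (A : Alg m) (σ : List Job) (h : Unit1 σ) (h1 : m + 1 ≤ nA A σ) :
    2 + pen A σ ≤ cost σ (Alg.sched A σ) := by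
  rw [cost_eq]
  have hk : ∃ k, 2 ≤ cnt A k σ := by
    by_contra hcon
    push Not at hcon
    have : ∑ k, cnt A k σ ≤ ∑ _k : Fin m, 1 := Finset.sum_le_sum fun k _ => by
      have := hcon k
      omega
    rw [sum_cnt] at this
    simp at this
    omega
  obtain ⟨k, hk⟩ := hk
  have h2 := load_le_sup σ (Alg.sched A σ) k
  rw [load_cnt A k σ h] at h2
  have h3 : (2 : ℝ) ≤ (cnt A k σ : ℝ) := by exact_mod_cast hk
  linarith

lemma rep_step (A : Alg m) (j : Job) (σ : List Job) (M : ℕ) :
    ∃ r ≤ M, nR A (σ ++ List.replicate M j) = nR A σ + r ∧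
      pen A (σ ++ List.replicate M j) = pen A σ + r * j.p := by
  induction M with
  | zero => exact ⟨0, le_refl _, by simp, by simp⟩
  | succ M ih =>
    obtain ⟨r, hr, h1, h2⟩ := ih
    have e : σ ++ List.replicate (M + 1) j = (σ ++ List.replicate M j) ++ [j] := by
      rw [List.replicate_succ', List.append_assoc]
    rw [e, nR_concat, pen_concat, h1, h2]
    cases hA : A (σ ++ List.replicate M j) j with
    | none =>
      refine ⟨r + 1, by omega, ?_, ?_⟩
      · simp only [if_true]
        omega
      · simp only [if_true]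
        push_cast
        ring
    | some k =>
      refine ⟨r, by omega, ?_, ?_⟩
      · simp only [reduceCtorEq, if_false]
        omega
      · simp

/-- Rejecting everything. -/
lemma opt_le_sum (hm : 1 ≤ m) (σ : List Job) :
    opt m σ ≤ ∑ i : Fin σ.length, (σ.get i).p := by
  refine (opt_le σ (fun _ => none)).trans ?_
  unfold cost load
  have : Nonempty (Fin m) := ⟨⟨0, hm⟩⟩
  simp

/-- Accept all jobs except a block of `M` jobs. -/
lemma opt_block (hm : 1 ≤ m) (ρ : List Job) (N M : ℕ) (ε : ℝ) (hε : 0 ≤ ε)
    (ht : ∀ i : Fin ρ.length, (ρ.get i).t = 1)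
    (hp : ∀ i : Fin ρ.length, N ≤ (i : ℕ) → (i : ℕ) < N + M → (ρ.get i).p ≤ ε)
    (hN : N ≤ m) (hlen : ρ.length ≤ m + M) : opt m ρ ≤ 1 + M * ε := by
  classical
  let s : Sched m ρ := fun i =>
    if h1 : (i : ℕ) < N then some ⟨i, by omega⟩
    else if h2 : (i : ℕ) < N + M then none
    else some ⟨i - M, by have := i.2; omega⟩
  refine (opt_le ρ s).trans ?_
  unfold cost
  have : Nonempty (Fin m) := ⟨⟨0, hm⟩⟩
  apply add_le_add
  · apply ciSup_le
    intro k
    unfold load
    have h1 : ∀ i : Fin ρ.length, (if s i = some k then (ρ.get i).t else 0) =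
        if s i = some k then (1 : ℝ) else 0 := by
      intro i
      rw [ht i]
    rw [Finset.sum_congr rfl fun i _ => h1 i, Finset.sum_boole]
    have h2 : (Finset.univ.filter fun i : Fin ρ.length => s i = some k).card ≤ 1 := by
      apply Finset.card_le_one.mpr
      intro i hi i' hi'
      have hi := (Finset.mem_filter.mp hi).2
      have hi' := (Finset.mem_filter.mp hi').2
      simp only [s] at hi hi'
      apply Fin.ext
      split_ifs at hi hi' <;>
        simp only [Option.some.injEq] at hi hi' <;>
        · have e1 := congrArg Fin.val hi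
          have e2 := congrArg Fin.val hi'
          simp only at e1 e2
          omega
    exact_mod_cast h2
  · have h1 : ∀ i : Fin ρ.length, (if s i = none then (ρ.get i).p else 0) ≤
        if (N ≤ (i : ℕ) ∧ (i : ℕ) < N + M) then ε else 0 := by
      intro i
      by_cases a1 : (i : ℕ) < N
      · have hs : s i ≠ none := by
          simp only [s]
          rw [dif_pos a1]
          simp
        rw [if_neg hs, if_neg (by omega)]
      · by_cases a2 : (i : ℕ) < N + M
        · have hs : s i = none := by
            simp only [s]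
            rw [dif_neg a1, dif_pos a2]
          rw [if_pos hs, if_pos ⟨by omega, a2⟩]
          exact hp i (by omega) a2
        · have hs : s i ≠ none := by
            simp only [s]
            rw [dif_neg a1, dif_neg a2]
            simp
          rw [if_neg hs, if_neg (by omega)]
    refine (Finset.sum_le_sum fun i _ => h1 i).trans ?_
    rw [← Finset.sum_filter, Finset.sum_const, nsmul_eq_mul]
    apply mul_le_mul_of_nonneg_right _ hε
    have h3 : (Finset.univ.filter fun i : Fin ρ.length => N ≤ (i : ℕ) ∧ (i : ℕ) < N + M).card ≤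
        (Finset.Ico N (N + M)).card := by
      apply Finset.card_le_card_of_injOn (fun i : Fin ρ.length => (i : ℕ))
      · intro i hi
        have := (Finset.mem_filter.mp hi).2
        simp only [Finset.coe_Ico, Set.mem_Ico]
        exact this
      · intro i _ i' _ h
        exact Fin.ext h
    rw [Nat.card_Ico] at h3
    have h4 : (Finset.univ.filter fun i : Fin ρ.length =>
        N ≤ (i : ℕ) ∧ (i : ℕ) < N + M).card ≤ M := by omega
    exact_mod_cast h4

lemma opt_le_one (hm : 1 ≤ m) (σ : List Job) (h : Unit1 σ) (hlen : σ.length ≤ m) :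
    opt m σ ≤ 1 := by
  have := opt_block hm σ 0 0 0 (le_refl _) (fun i => h _ (List.get_mem _ _)) (by intro i; omega)
    (by omega) (by omega)
  simpa using this

/-- Unit job with given penalty. -/
noncomputable def uj (p : ℝ) (hp : 0 < p) : Job := ⟨1, p, one_pos, hp⟩

lemma unit_append {σ : List Job} (h : Unit1 σ) (M : ℕ) (p : ℝ) (hp : 0 < p) :
    Unit1 (σ ++ List.replicate M (uj p hp)) := by
  intro j hj
  rw [List.mem_append] at hj
  rcases hj with hj | hj
  · exact h j hj
  · rw [List.eq_of_mem_replicate hj]; rfl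


/-- Forced jobs after a block of cheap jobs. -/
lemma final_blow (hm : 1 ≤ m) (A : Alg m) (c : ℝ) (hc : c ≤ 3)
    (hA : ∀ σ : List Job, Unit1 σ → cost σ (Alg.sched A σ) ≤ c * opt m σ)
    (σ : List Job) (hu : Unit1 σ) (M : ℕ) (ε : ℝ) (hε : 0 < ε)
    (hlen : σ.length + M ≤ m)
    (hM : nR A (σ ++ List.replicate M (uj ε hε)) + 1 ≤ M)
    (hb : (nR A (σ ++ List.replicate M (uj ε hε)) + 1) * ε ≤ 2) :
    2 + pen A (σ ++ List.replicate M (uj ε hε)) ≤
      c * (1 + (nR A (σ ++ List.replicate M (uj ε hε)) + 1) * ε) := by
  set σ' := σ ++ List.replicate M (uj ε hε) with hσ'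
  have hu' : Unit1 σ' := unit_append hu M ε hε
  have hlen' : σ'.length = σ.length + M := by simp [hσ']
  have hsum := nA_add_nR A σ'
  obtain ⟨F, hF⟩ : ∃ F, nA A σ' + F = m + 1 := ⟨m + 1 - nA A σ', by omega⟩
  have hB : (0 : ℝ) < 10 := by norm_num
  obtain ⟨q, hq, f1, f2⟩ := rep_step A (uj 10 hB) σ' F
  set ρ := σ' ++ List.replicate F (uj 10 hB) with hρ
  have huρ : Unit1 ρ := unit_append hu' F 10 hB
  have hρlen : ρ.length = σ.length + M + F := by
    rw [hρ, List.length_append, List.length_replicate, hlen']
  have hsum' := nA_add_nR A ρ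
  have hopt : opt m ρ ≤ 1 + ((nR A σ' + 1 : ℕ) : ℝ) * ε := by
    apply opt_block hm ρ σ.length (nR A σ' + 1) ε hε.le
    · intro i
      exact huρ _ (List.get_mem _ _)
    · intro i hi1 hi2
      have h1 : (i : ℕ) < σ'.length := by rw [hlen']; omega
      have h2 : ρ.get i = uj ε hε := by
        rw [List.get_eq_getElem]
        rw [List.getElem_append_left h1]
        rw [List.getElem_append_right hi1]
        simp
      rw [h2]
      exact le_refl _
    · omega
    · rw [hρlen]; omega
  push_cast at hopt
  have hcost := hA ρ huρ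
  have hc0 : 0 ≤ c := by
    -- the optimum is positive on a one job instance
    by_contra hneg
    push Not at hneg
    have h1 := hA ρ huρ
    have h2 := cost_nonneg ρ (Alg.sched A ρ)
    have h3 := opt_nonneg (m := m) ρ
    have h4 : opt m ρ = 0 := by nlinarith
    have h5 : cost ρ (Alg.sched A ρ) = 0 := by nlinarith
    rcases Nat.eq_zero_or_pos q with hq0 | hq0
    · have hnρ : m + 1 ≤ nA A ρ := by omega
      have h6 := cost_ge_two A ρ huρ hnρ
      have h7 : 0 ≤ pen A ρ := penS_nonneg ρ (Alg.sched A ρ)
      linarith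
    · have h7 : 0 ≤ pen A σ' := penS_nonneg σ' (Alg.sched A σ')
      have h8 : pen A ρ = pen A σ' + q * 10 := f2
      have h9 : (1 : ℝ) ≤ q := by exact_mod_cast hq0
      have h10 := sup_nonneg ρ (Alg.sched A ρ)
      rw [cost_eq] at h5
      linarith
  have hcopt : c * opt m ρ ≤ c * (1 + (nR A σ' + 1) * ε) :=
    mul_le_mul_of_nonneg_left hopt hc0
  rcases Nat.eq_zero_or_pos q with hq0 | hq0
  · subst hq0
    have hnρ : m + 1 ≤ nA A ρ := by omega
    have h2 := cost_ge_two A ρ huρ hnρ
    have h3 : pen A ρ = pen A σ' := by rw [f2]; simp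
    rw [h3] at h2
    linarith
  · exfalso
    have h3 : 10 ≤ pen A ρ := by
      rw [f2]
      have hBp : (uj 10 hB).p = 10 := rfl
      rw [hBp]
      have : (1 : ℝ) ≤ q := by exact_mod_cast hq0
      have h7 : 0 ≤ pen A σ' := penS_nonneg σ' (Alg.sched A σ')
      linarith
    have h4 : pen A ρ ≤ cost ρ (Alg.sched A ρ) := by
      rw [cost_eq]
      have := sup_nonneg ρ (Alg.sched A ρ)
      linarith
    have h5 : c * (1 + (nR A σ' + 1) * ε) ≤ 3 * (1 + 2) := by
      apply mul_le_mul hc (by linarith) _ (by norm_num)
      have : 0 ≤ ((nR A σ' : ℝ) + 1) * ε := by positivity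
      linarith
    linarith


lemma pen_le_cost (A : Alg m) (σ : List Job) : pen A σ ≤ cost σ (Alg.sched A σ) := by
  rw [cost_eq]
  have := sup_nonneg σ (Alg.sched A σ)
  linarith

lemma pen_nonneg (A : Alg m) (σ : List Job) : 0 ≤ pen A σ := penS_nonneg σ (Alg.sched A σ)
end Lower

section Existence

/-- Reject exactly the jobs with `p ≤ t`, put the others on machine `0`. -/
noncomputable def trivialAlg (m : ℕ) (hm : 1 ≤ m) : Alg m :=
  fun _ j => if j.p ≤ j.t then none else some ⟨0, hm⟩

lemma competitive_trivial (m : ℕ) (hm : 1 ≤ m) : Competitive m m := by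
  classical
  have hm0 : (0 : ℝ) < m := by exact_mod_cast hm
  refine ⟨trivialAlg m hm, fun σ => ?_⟩
  -- the cost of the algorithm
  have h1 : cost σ (Alg.sched (trivialAlg m hm) σ) ≤
      ∑ i : Fin σ.length, min (σ.get i).p (σ.get i).t := by
    have hN : Nonempty (Fin m) := ⟨⟨0, hm⟩⟩
    have h2 : (⨆ k, load σ (Alg.sched (trivialAlg m hm) σ) k) ≤
        ∑ i : Fin σ.length, if (σ.get i).p ≤ (σ.get i).t then 0 else (σ.get i).t := by
      apply ciSup_le
      intro k
      unfold load
      apply Finset.sum_le_sum
      intro i _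
      unfold Alg.sched trivialAlg
      by_cases h : (σ.get i).p ≤ (σ.get i).t
      · simp only [if_pos h]
        simp
      · simp only [if_neg h]
        split_ifs
        · exact le_refl _
        · exact (σ.get i).t_pos.le
    unfold cost
    refine (add_le_add_left h2 _).trans ?_
    rw [← Finset.sum_add_distrib]
    apply Finset.sum_le_sum
    intro i _
    unfold Alg.sched trivialAlg
    by_cases h : (σ.get i).p ≤ (σ.get i).t
    · simp only [if_pos h]
      rw [min_eq_left h]
      simp
    · simp only [if_neg h]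
      rw [min_eq_right (le_of_not_ge h)]
      simp
  have h3 : (1 / (m : ℝ)) * ∑ i : Fin σ.length, min (σ.get i).p (σ.get i).t ≤ opt m σ := by
    apply le_opt
    intro s
    have hm1 : (1 : ℝ) ≤ m := by exact_mod_cast hm
    have h4 : ∑ k, load σ s k ≤ m * ⨆ k, load σ s k := by
      have := Finset.sum_le_card_nsmul (Finset.univ : Finset (Fin m)) (fun k => load σ s k)
        (⨆ k, load σ s k) (fun k _ => load_le_sup σ s k)
      simpa using this
    have h5 : ∑ k, load σ s k = ∑ i : Fin σ.length, if s i = none then 0 else (σ.get i).t := by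
      unfold load
      rw [Finset.sum_comm]
      apply Finset.sum_congr rfl
      intro i _
      cases hs : s i with
      | none => simp
      | some k => simp
    have h6 : ∑ i : Fin σ.length, min (σ.get i).p (σ.get i).t ≤
        ∑ k, load σ s k + ∑ i, if s i = none then (σ.get i).p else 0 := by
      rw [h5, ← Finset.sum_add_distrib]
      apply Finset.sum_le_sum
      intro i _
      split_ifs
      · simp
      · simp
    have h7 := penS_nonneg σ s
    unfold cost
    rw [one_div, inv_mul_le_iff₀ hm0]
    nlinarith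
  have h8 : ∑ i : Fin σ.length, min (σ.get i).p (σ.get i).t ≤ m * opt m σ := by
    rw [one_div, inv_mul_le_iff₀ hm0] at h3
    exact h3
  exact h1.trans h8

end Existence

lemma Competitive.mono {m : ℕ} {c c' : ℝ} (h : Competitive m c) (hcc : c ≤ c') :
    Competitive m c' := by
  obtain ⟨A, hA⟩ := h
  exact ⟨A, fun σ => (hA σ).trans (mul_le_mul_of_nonneg_right hcc (opt_nonneg σ))⟩

lemma UnitCompetitive.mono {m : ℕ} {c c' : ℝ} (h : UnitCompetitive m c) (hcc : c ≤ c') :
    UnitCompetitive m c' := by
  obtain ⟨A, hA⟩ := h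
  exact ⟨A, fun σ hσ => (hA σ hσ).trans (mul_le_mul_of_nonneg_right hcc (opt_nonneg σ))⟩

lemma Competitive.unit {m : ℕ} {c : ℝ} (h : Competitive m c) : UnitCompetitive m c := by
  obtain ⟨A, hA⟩ := h
  exact ⟨A, fun σ _ => hA σ⟩

lemma not_unitCompetitive_neg {m : ℕ} (hm : 1 ≤ m) (c : ℝ) (hc : c < 0) :
    ¬ UnitCompetitive m c := by
  rintro ⟨A, hA⟩
  have hun : Unit1 [uj 1 one_pos] := by
    intro j hj
    rw [List.mem_singleton] at hj
    rw [hj]; rfl
  have h1 := hA [uj 1 one_pos] hun
  have h2 := cost_nonneg [uj 1 one_pos] (Alg.sched A [uj 1 one_pos])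
  have h3 : 1 ≤ opt m [uj 1 one_pos] := by
    apply le_opt
    intro s
    unfold cost
    have hN : Nonempty (Fin m) := ⟨⟨0, hm⟩⟩
    rcases hs : s ⟨0, by simp⟩ with _ | k
    · have h4 := sup_nonneg [uj 1 one_pos] s
      have h5 : (∑ i, if s i = none then (([uj 1 one_pos] : List Job).get i).p else 0) = 1 := by
        rw [Fintype.sum_eq_single (⟨0, by simp⟩ : Fin ([uj 1 one_pos] : List Job).length)]
        · rw [if_pos hs]; rfl
        · intro i hi
          exfalso
          apply hi
          apply Fin.ext
          simp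
      linarith
    · have h4 := load_le_sup [uj 1 one_pos] s k
      have h5 := penS_nonneg [uj 1 one_pos] s
      have h6 : load [uj 1 one_pos] s k = 1 := by
        unfold load
        rw [Fintype.sum_eq_single (⟨0, by simp⟩ : Fin ([uj 1 one_pos] : List Job).length)]
        · rw [if_pos hs]; rfl
        · intro i hi
          exfalso
          apply hi
          apply Fin.ext
          simp
      linarith
  nlinarith

lemma bddBelow_unit {m : ℕ} (hm : 1 ≤ m) : BddBelow {c : ℝ | UnitCompetitive m c} := by
  refine ⟨0, fun c hc => ?_⟩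
  by_contra hcon
  push Not at hcon
  exact not_unitCompetitive_neg hm c hcon hc

lemma Runit_le {m : ℕ} (hm : 1 ≤ m) {c : ℝ} (hc : UnitCompetitive m c) : Runit m ≤ c :=
  csInf_le (bddBelow_unit hm) hc

lemma Runit_le_R {m : ℕ} (hm : 1 ≤ m) : Runit m ≤ R m := by
  refine le_csInf ⟨(m : ℝ), competitive_trivial m hm⟩ ?_
  intro c hc
  exact Runit_le hm (Competitive.unit hc)

lemma le_Runit {m : ℕ} (hm : 1 ≤ m) (x : ℝ) (h : ¬ UnitCompetitive m x) : x ≤ Runit m := by
  refine le_csInf ⟨(m : ℝ), Competitive.unit (competitive_trivial m hm)⟩ ?_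
  intro c hc
  by_contra hcon
  push Not at hcon
  exact h (UnitCompetitive.mono hc hcon.le)

end Pool.Agent.H704.Rej
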