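import Pool.Agent.H704.Rej.Upper

/-!
# Choice of the parameters
-/

set_option autoImplicit false

namespace Pool.Agent.H704.Rej

open Real

lemma hN_of {m : ℕ} {c L Z₀ : ℝ} (hm : 1 ≤ m) (hc : 2 ≤ c) (hc' : c ≤ 3) (hL : 1 ≤ L)
    (hZ₀ : 0 < Z₀) (h : 16 * (m * Z₀ ^ c) ≤ L) (Z : ℝ) (hZ : Z₀ ≤ Z)
    (hθ : 1 / (2 * m) < thr c L Z₀ Z) : Z + thr c L Z₀ Z ≤ 1 / 2 := by
  have hm0 : (0 : ℝ) < m := by exact_mod_cast hm
  have hZ0 : 0 < Z := lt_of_lt_of_le hZ₀ hZ
  have hle := thr_le (c := c) (L := L) hc (by linarith) hZ₀ hZ0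
  have hZ4 : Z < 1 / 4 := by
    by_contra hcon
    push Not at hcon
    have h1 : (1 / 16 : ℝ) ≤ Z ^ (c - 1) := by
      have h2 : (1 / 4 : ℝ) ^ (c - 1) ≤ Z ^ (c - 1) :=
        rpow_le_rpow (by norm_num) hcon (by linarith)
      have h3 : (1 / 4 : ℝ) ^ (2 : ℝ) ≤ (1 / 4 : ℝ) ^ (c - 1) :=
        rpow_le_rpow_of_exponent_ge (by norm_num) (by norm_num) (by linarith)
      have h4 : (1 / 4 : ℝ) ^ (2 : ℝ) = 1 / 16 := by
        rw [rpow_two]; norm_num
      linarith
    have h5 : Z ^ c = Z ^ (c - 1) * Z := by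
      conv_rhs => rw [← rpow_one Z, ← rpow_mul hZ0.le, one_mul, ← rpow_add hZ0]
      congr 1
      ring
    have h6 : (Z / Z₀) ^ c * Z₀ ^ c = Z ^ c := by
      rw [← mul_rpow (by positivity) hZ₀.le]
      congr 1
      field_simp
    unfold thr at hθ
    have hy : 0 < (Z / Z₀) ^ c := rpow_pos_of_pos (by positivity) _
    rw [div_div, div_lt_div_iff₀ (by positivity) (by positivity)] at hθ
    have h7 : 16 * (m * Z₀ ^ c) * (Z / Z₀) ^ c ≤ L * (Z / Z₀) ^ c :=
      mul_le_mul_of_nonneg_right h hy.le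
    have h8 : 16 * (m * Z₀ ^ c) * (Z / Z₀) ^ c = 16 * m * (Z ^ (c - 1) * Z) := by
      rw [← h5, ← h6]; ring
    rw [h8] at h7
    have h9 : m * Z ≤ 16 * m * (Z ^ (c - 1) * Z) := by
      have h10 : 1 / 16 * (m * Z) ≤ Z ^ (c - 1) * (m * Z) :=
        mul_le_mul_of_nonneg_right h1 (by positivity)
      nlinarith
    have h11 : 2 * (m * Z) ≤ c * (m * Z) := mul_le_mul_of_nonneg_right hc (by positivity)
    have h12 : c * (m * Z) ≤ c * (L * (Z / Z₀) ^ c) :=
      mul_le_mul_of_nonneg_left (h9.trans h7) (by linarith)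
    have h13 : 0 < c * (L * (Z / Z₀) ^ c) := by positivity
    nlinarith
  linarith

/-- The gap is at least `κ * (log m / m) ^ (1 / φ²)` for unit running times. -/
theorem gap_lower : ∃ κ : ℝ, 0 < κ ∧ ∃ m₀ : ℕ, ∀ m : ℕ, m₀ ≤ m →
    κ * (log m / m) ^ (1 / goldenRatio ^ 2) ≤ 1 + goldenRatio - Runit m := by
  have hφsq := goldenRatio_sq
  have hφ1 : 1.618 < goldenRatio := by
    unfold goldenRatio
    have : (2.236 : ℝ) < √5 := by
      apply lt_sqrt_of_sq_lt
      norm_num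
    linarith
  have hφ2 : goldenRatio < 1.6181 := by
    unfold goldenRatio
    have : √5 < (2.2361 : ℝ) := by
      rw [sqrt_lt' (by norm_num)]
      norm_num
    linarith
  set φ := goldenRatio with hφ
  have hφ3 : 2.618 < φ ^ 2 := by rw [hφsq]; linarith
  have hφ4 : φ ^ 2 < 2.6181 := by rw [hφsq]; linarith
  set a := 1 / φ ^ 2 with ha
  have ha0 : 0 < a := by positivity
  have ha3 : 1 / 3 ≤ a := by
    rw [ha]
    apply one_div_le_one_div_of_le (by linarith)
    linarith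
  have haφ : a * φ ^ 2 = 1 := by
    rw [ha]
    field_simp
  refine ⟨(1 / 15360) ^ a, by positivity, max ⌈exp 60⌉₊ 1000, fun m hm => ?_⟩
  have hm1000 : 1000 ≤ m := le_trans (le_max_right _ _) hm
  have hme : exp 60 ≤ m := by
    have h1 : ⌈exp 60⌉₊ ≤ m := le_trans (le_max_left _ _) hm
    have h2 : exp 60 ≤ (⌈exp 60⌉₊ : ℝ) := Nat.le_ceil _
    have h3 : (⌈exp 60⌉₊ : ℝ) ≤ m := by exact_mod_cast h1
    linarith
  have hmR : (1000 : ℝ) ≤ m := by exact_mod_cast hm1000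
  have hm0 : (0 : ℝ) < m := by linarith
  set Λ := log m with hΛ
  have hΛ60 : 60 ≤ Λ := by
    rw [hΛ, le_log_iff_exp_le hm0]
    exact hme
  have hlogΛ : log Λ ≤ Λ / 2 := by
    have h1 := log_le_sub_one_of_pos (show 0 < Λ / 2 by linarith)
    rw [log_div (by linarith) (by norm_num)] at h1
    have := log_two_lt_d9
    linarith
  set g := (1 / 15360 * (Λ / m)) ^ a with hg
  have hb0 : 0 < 1 / 15360 * (Λ / m) := by positivity
  have hg0 : 0 < g := rpow_pos_of_pos hb0 _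
  have hgoal : (1 / 15360 : ℝ) ^ a * (Λ / m) ^ a = g := by
    rw [hg, mul_rpow (by norm_num) (by positivity)]
  rw [hgoal]
  have hgφ : g ^ (φ ^ 2) = 1 / 15360 * (Λ / m) := by
    rw [hg, ← rpow_mul hb0.le, haφ, rpow_one]
  have hlogg : log g = a * log (1 / 15360 * (Λ / m)) := by
    rw [hg, log_rpow hb0]
  have hlog3 : log 3 ≤ 2 := by
    have := log_le_sub_one_of_pos (show (0 : ℝ) < 3 by norm_num)
    linarith
  have hlog : log (3 * g) ≤ -(Λ / 12) := by
    rw [log_mul (by norm_num) hg0.ne', hlogg, log_mul (by norm_num) (by positivity),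
      log_div (by linarith) hm0.ne', ← hΛ]
    have h1 : log (1 / 15360 : ℝ) ≤ 0 := log_nonpos (by norm_num) (by norm_num)
    have h2 : log (1 / 15360) + (log Λ - Λ) ≤ -(Λ / 2) := by linarith
    have h3 : a * (log (1 / 15360) + (log Λ - Λ)) ≤ a * (-(Λ / 2)) :=
      mul_le_mul_of_nonneg_left h2 ha0.le
    have h4 : a * (-(Λ / 2)) ≤ 1 / 3 * (-(Λ / 2)) := by nlinarith
    linarith
  have h3g : 3 * g ≤ exp (-5) := by
    rw [← exp_log (show 0 < 3 * g by positivity)]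
    apply exp_le_exp.mpr
    linarith
  have hexp5 : exp (-5) ≤ 1 / 20 := by
    have h1 : exp (-5) = 1 / exp 5 := by rw [exp_neg, one_div]
    have h2 : (20 : ℝ) ≤ exp 5 := by
      have h3 : exp 5 = exp 1 ^ 5 := by
        rw [← exp_nat_mul]; norm_num
      have h4 := exp_one_gt_d9
      rw [h3]
      have h5 : (2 : ℝ) ^ 5 ≤ exp 1 ^ 5 := pow_le_pow_left₀ (by norm_num) (by linarith) 5
      linarith
    rw [h1]
    exact one_div_le_one_div_of_le (by norm_num) h2
  have hg60 : g ≤ 1 / 60 := by linarith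
  set c := φ ^ 2 - g with hc
  have hc1 : 5 / 2 ≤ c := by linarith
  have hc2 : c ≤ 27 / 10 := by linarith
  set Ec := -c ^ 2 + 3 * c - 1 with hEc
  have hEcg : Ec = g * (2 * φ - 1 - g) := by
    have h4 : c = φ + 1 - g := by rw [hc, hφsq]
    have : φ * φ = φ + 1 := by rw [← sq, hφsq]
    rw [hEc, h4]
    nlinarith
  have hEc1 : g ≤ Ec := by
    rw [hEcg]
    nlinarith
  have hEc3 : Ec ≤ 3 * g := by
    rw [hEcg]
    nlinarith
  have hEc0 : 0 < Ec := by linarith
  have hlogEc : log Ec ≤ -(Λ / 12) := (log_le_log hEc0 hEc3).trans hlog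
  set Z₀ := Ec / (c - 1) with hZ₀
  have hZ₀0 : 0 < Z₀ := div_pos hEc0 (by linarith)
  have hZ₀2 : Z₀ ≤ 2 * g := by
    rw [hZ₀, div_le_iff₀ (by linarith)]
    nlinarith
  set L := -log Ec / 5 with hL
  have hL60 : Λ / 60 ≤ L := by
    rw [hL]
    linarith
  have hL1 : 1 ≤ L := by linarith
  have h16 : 16 * (m * Z₀ ^ c) ≤ L := by
    have h1 : Z₀ ^ c ≤ (2 * g) ^ c := rpow_le_rpow hZ₀0.le hZ₀2 (by linarith)
    have h2 : (2 * g) ^ c = (2 * g) ^ (φ ^ 2) * (2 * g) ^ (-g) := by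
      rw [← rpow_add (by positivity), hc]
      congr 1
    have h3 : (2 * g) ^ (-g) ≤ 2 := by
      rw [rpow_def_of_pos (by positivity)]
      have h4 : log (1 / (2 * g)) ≤ 1 / (2 * g) - 1 := log_le_sub_one_of_pos (by positivity)
      rw [log_div (by norm_num) (by positivity), log_one] at h4
      have h5 : log (2 * g) * -g ≤ 1 / 2 := by
        have h6 : -log (2 * g) * g ≤ (1 / (2 * g)) * g :=
          mul_le_mul_of_nonneg_right (by linarith) hg0.le
        have h7 : 1 / (2 * g) * g = 1 / 2 := by field_simp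
        linarith
      have h8 : exp (log (2 * g) * -g) ≤ exp (1 / 2) := exp_le_exp.mpr h5
      have h9 : exp (1 / 2) ≤ 2 := by
        have h10 : exp (1 / 2) * exp (1 / 2) = exp 1 := by
          rw [← exp_add]; norm_num
        have h11 := exp_one_lt_d9
        have h12 := exp_pos (1 / 2)
        nlinarith
      linarith
    have h4 : (2 * g) ^ (φ ^ 2) ≤ 8 * g ^ (φ ^ 2) := by
      rw [mul_rpow (by norm_num) hg0.le]
      apply mul_le_mul_of_nonneg_right _ (by positivity)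
      have h5 : (2 : ℝ) ^ (φ ^ 2) ≤ 2 ^ (3 : ℝ) :=
        rpow_le_rpow_of_exponent_le (by norm_num) (by linarith)
      have h6 : (2 : ℝ) ^ (3 : ℝ) = 8 := by
        rw [show (3 : ℝ) = ((3 : ℕ) : ℝ) by norm_num, rpow_natCast]; norm_num
      linarith
    have h5 : Z₀ ^ c ≤ 16 * g ^ (φ ^ 2) := by
      rw [h2] at h1
      have h6 : 0 < (2 * g) ^ (φ ^ 2) := rpow_pos_of_pos (by positivity) _
      have h7 : (2 * g) ^ (φ ^ 2) * (2 * g) ^ (-g) ≤ (2 * g) ^ (φ ^ 2) * 2 :=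
        mul_le_mul_of_nonneg_left h3 h6.le
      linarith
    rw [hgφ] at h5
    have h6 : m * Z₀ ^ c ≤ m * (16 * (1 / 15360 * (Λ / m))) :=
      mul_le_mul_of_nonneg_left h5 hm0.le
    have h7 : m * (16 * (1 / 15360 * (Λ / m))) = Λ / 960 := by
      field_simp
      norm_num
    linarith
  have hEm : c * (1 / (2 * m)) < Ec := by
    by_contra hcon
    push Not at hcon
    have h1 : g ≤ 27 / 20 * (1 / m) := by
      have h2 : c * (1 / (2 * (m : ℝ))) = c / 2 * (1 / m) := by field_simp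
      rw [h2] at hcon
      have h3 : c / 2 * (1 / (m : ℝ)) ≤ 27 / 20 * (1 / m) :=
        mul_le_mul_of_nonneg_right (by linarith) (by positivity)
      linarith
    have h2 : g ^ (φ ^ 2) ≤ g ^ (2 : ℝ) :=
      rpow_le_rpow_of_exponent_ge hg0 (by linarith) (by linarith)
    rw [hgφ, rpow_two] at h2
    have h3 : g ^ 2 ≤ (27 / 20 * (1 / m)) ^ 2 := pow_le_pow_left₀ hg0.le h1 2
    have h4 : 1 / 15360 * (Λ / m) ≤ (27 / 20 * (1 / m)) ^ 2 := h2.trans h3
    have h5 : 1 / 15360 * (Λ / m) * m ^ 2 ≤ (27 / 20 * (1 / m)) ^ 2 * m ^ 2 :=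
      mul_le_mul_of_nonneg_right h4 (by positivity)
    have h6 : 1 / 15360 * (Λ / m) * (m : ℝ) ^ 2 = Λ * m / 15360 := by
      field_simp
    have h7 : (27 / 20 * (1 / (m : ℝ))) ^ 2 * m ^ 2 = (27 / 20) ^ 2 := by
      field_simp
    rw [h6, h7] at h5
    have h8 : (60 : ℝ) * 1000 ≤ Λ * m := mul_le_mul hΛ60 hmR (by norm_num) (by linarith)
    norm_num at h5
    linarith
  have hpar : Par m c L Z₀ Ec :=
    { hm := by omega
      hc := hc1
      hc' := hc2
      hEc := rfl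
      hEc0 := hEc0
      hEm := hEm
      hZ := rfl
      hZ2 := by linarith
      hL := rfl
      hL1 := hL1
      hN := fun Z hZ hθ => hN_of (by omega) (by linarith) (by linarith) hL1 hZ₀0 h16 Z hZ hθ }
  have h1 := Runit_le (by omega) (unit_competitive hpar)
  rw [hc, hφsq] at h1
  linarith

end Pool.Agent.H704.Rej
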