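import Pool.Agent.H704.Rej.Base

/-!
# The adversary: `m < K * log (4 / g) * g ^ (-φ²)` for a `(φ² - g)`-competitive algorithm
-/

set_option autoImplicit false

namespace Pool.Agent.H704.Rej

section Adversary

variable {m : ℕ}

/-- One stage: `2 (R + 1)` jobs of penalty `u Y / (R + 1)`, `u = (1 - δ) / φ²`. -/
lemma stage (hm : 1 ≤ m) (A : Alg m) (c : ℝ) (hc : c ≤ Real.goldenRatio ^ 2) (hc1 : 1 ≤ c)
    (hA : ∀ σ : List Job, Unit1 σ → cost σ (Alg.sched A σ) ≤ c * opt m σ)
    (δ : ℝ) (hδ : 0 < δ) (hδ4 : δ ≤ 1 / 4) (σ : List Job) (hun : Unit1 σ)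
    (hY : 0 < 2 + pen A σ - c) (hY2 : 2 + pen A σ - c ≤ 2)
    (hlenM : σ.length + 2 * (nR A σ + 1) ≤ m) :
    ∃ σ' : List Job, Unit1 σ' ∧ σ'.length = σ.length + 2 * (nR A σ + 1) ∧
      nR A σ < nR A σ' ∧ ∃ x : ℝ, δ ≤ x ∧ x ≤ 2 ∧
      (nR A σ' : ℝ) + 1 = (nR A σ + 1) * (1 + x) ∧
      2 + pen A σ' - c = (2 + pen A σ - c) * (1 + (1 - δ) / Real.goldenRatio ^ 2 * x) := by
  have hφ0 := Real.goldenRatio_pos
  have hφ1 := Real.one_lt_goldenRatio
  have hφ2 := Real.goldenRatio_lt_two
  have hφsq := Real.goldenRatio_sq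
  set φ := Real.goldenRatio with hφ
  have hc3 : c ≤ 3 := by linarith
  set u := (1 - δ) / φ ^ 2 with hu
  have hφsq0 : 0 < φ ^ 2 := by positivity
  have hu0 : 0 < u := by
    apply div_pos _ hφsq0
    linarith
  have huφ : u * φ ^ 2 = 1 - δ := by
    rw [hu]
    field_simp
  set Y := 2 + pen A σ - c with hYdef
  set Rr : ℝ := (nR A σ : ℝ) + 1 with hRr
  have hRr1 : 1 ≤ Rr := by
    rw [hRr]
    have : (0 : ℝ) ≤ (nR A σ : ℝ) := Nat.cast_nonneg _
    linarith
  set ε := u * Y / Rr with hε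
  have hε0 : 0 < ε := by positivity
  have hεR : ε * Rr = u * Y := by
    rw [hε]
    field_simp
  set M := 2 * (nR A σ + 1) with hM
  obtain ⟨r, hrM, hr1, hr2⟩ := rep_step A (uj ε hε0) σ M
  have hpj : (uj ε hε0).p = ε := rfl
  rw [hpj] at hr2
  set σ' := σ ++ List.replicate M (uj ε hε0) with hσ'
  have hun' : Unit1 σ' := unit_append hun M ε hε0
  have hlen' : σ'.length = σ.length + M := by simp [hσ']
  have hrr : (0 : ℝ) ≤ r := Nat.cast_nonneg r
  by_cases hcase : (r : ℝ) < δ * Rr
  · exfalso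
    have hrR : (r : ℝ) < Rr := by nlinarith
    have hrn : r < nR A σ + 1 := by
      have : (r : ℝ) < ((nR A σ + 1 : ℕ) : ℝ) := by push_cast; exact hrR
      exact_mod_cast this
    have hb : ((nR A σ' : ℝ) + 1) * ε = (Rr + r) * ε := by
      rw [hr1]
      push_cast
      ring
    have hu12 : u * φ ^ 2 ≤ 1 := by rw [huφ]; linarith
    have hu13 : u ≤ 1 / 2 := by
      rw [hφsq] at hu12
      nlinarith
    have hfb := final_blow hm A c hc3 hA σ hun M ε hε0 hlenM (by rw [← hσ', hr1]; omega)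
      (by
        rw [← hσ', hb]
        have : (Rr + r) * ε ≤ (Rr + Rr) * ε := by
          apply mul_le_mul_of_nonneg_right (by linarith) hε0.le
        have h5 : (Rr + Rr) * ε = 2 * (u * Y) := by linarith
        nlinarith [mul_nonneg hu0.le hY.le])
    rw [← hσ', hb, hr2] at hfb
    -- `Y + r ε ≤ c (Rr + r) ε`
    have h6 : Y ≤ c * (u * Y) + (c - 1) * (r * ε) := by
      have e1 : c * (1 + (Rr + r) * ε) = c + c * (ε * Rr) + c * (r * ε) := by ring
      rw [e1, hεR] at hfb
      have : 2 + (pen A σ + r * ε) = Y + c + r * ε := by rw [hYdef]; ring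
      rw [this] at hfb
      linarith
    have h7 : r * ε ≤ δ * (u * Y) := by
      have : r * ε ≤ (δ * Rr) * ε := mul_le_mul_of_nonneg_right hcase.le hε0.le
      have h9 : (δ * Rr) * ε = δ * (u * Y) := by rw [← hεR]; ring
      linarith
    have h8' : (c - 1) * (r * ε) ≤ (c - 1) * (δ * (u * Y)) :=
      mul_le_mul_of_nonneg_left h7 (by linarith)
    have h9 : Y ≤ (c * u + (c - 1) * δ * u) * Y := by nlinarith
    have h10 : 1 ≤ c * u + (c - 1) * δ * u := by
      by_contra hcon
      push Not at hcon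
      nlinarith
    have h11 : c * u ≤ 1 - δ := by
      rw [← huφ, mul_comm u]
      exact mul_le_mul_of_nonneg_right hc hu0.le
    have h12 : (c - 1) * δ * u ≤ φ * δ * u := by
      apply mul_le_mul_of_nonneg_right _ hu0.le
      apply mul_le_mul_of_nonneg_right _ hδ.le
      linarith
    have h13 : φ * u < 1 := by
      have : φ * u * φ ≤ 1 := by nlinarith
      nlinarith [mul_pos hφ0 hu0]
    nlinarith
  · push Not at hcase
    have hr0 : 0 < (r : ℝ) := lt_of_lt_of_le (by positivity) hcase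
    have hr0' : 0 < r := by exact_mod_cast hr0
    set x := (r : ℝ) / Rr with hx
    have hxR : x * Rr = r := by
      rw [hx]
      field_simp
    have hxδ : δ ≤ x := by
      rw [hx, le_div_iff₀ (by linarith)]
      exact hcase
    have hx2 : x ≤ 2 := by
      rw [hx, div_le_iff₀ (by linarith)]
      have : (r : ℝ) ≤ (M : ℝ) := by exact_mod_cast hrM
      rw [hM] at this
      push_cast at this
      exact this
    refine ⟨σ', hun', hlen', by omega, x, hxδ, hx2, ?_, ?_⟩
    · rw [hr1]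
      push_cast
      have : Rr * (1 + x) = Rr + x * Rr := by ring
      rw [this, hxR, hRr]
      ring
    · rw [hr2, ← hxR]
      have : Y * (1 + u * x) = Y + x * (u * Y) := by ring
      rw [this, ← hεR, hYdef]
      ring

lemma sqrt_step (x : ℝ) (hx0 : 0 ≤ x) (hx2 : x ≤ 2) : 1 + x / 3 ≤ √(1 + x) := by
  apply Real.le_sqrt_of_sq_le
  nlinarith

/-- All stages together. -/
lemma stages (hm : 1 ≤ m) (A : Alg m) (c : ℝ) (hc : c ≤ Real.goldenRatio ^ 2) (hc1 : 1 ≤ c)
    (hA : ∀ σ : List Job, Unit1 σ → cost σ (Alg.sched A σ) ≤ c * opt m σ)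
    (R₀ Y₀ : ℝ) (hR₀ : 1 ≤ R₀) (hY₀ : 0 < Y₀)
    (hQ : 9216 * (R₀ * (2 / Y₀) ^ (Real.goldenRatio ^ 2) * Real.exp 2) ≤ m)
    (hR₀m : 8 * R₀ ≤ m) (n : ℕ) :
    ∀ σ : List Job, Unit1 σ → m ≤ nR A σ + n → 0 < 2 + pen A σ - c → σ.length ≤ m →
      (σ.length : ℝ) ≤ R₀ + 24 * m * √((nR A σ + 1) / m) →
      Real.log Y₀ + 1 / Real.goldenRatio ^ 2 *
        (Real.log (nR A σ + 1) - Real.log R₀ - √((nR A σ + 1) / m)) ≤
          Real.log (2 + pen A σ - c) → False := by
  have hφ0 := Real.goldenRatio_pos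
  have hφ1 := Real.one_lt_goldenRatio
  have hφ2 := Real.goldenRatio_lt_two
  have hφsq := Real.goldenRatio_sq
  set φ := Real.goldenRatio with hφ
  have hφsq0 : 0 < φ ^ 2 := by positivity
  have hm1 : (1 : ℝ) ≤ m := by exact_mod_cast hm
  have hm0 : (0 : ℝ) < m := by linarith
  -- preliminary consequences
  have key : ∀ σ : List Job, Unit1 σ → 0 < 2 + pen A σ - c → σ.length ≤ m →
      Real.log Y₀ + 1 / φ ^ 2 *
        (Real.log (nR A σ + 1) - Real.log R₀ - √((nR A σ + 1) / m)) ≤
          Real.log (2 + pen A σ - c) →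
      2 + pen A σ - c ≤ 2 ∧ (nR A σ : ℝ) + 1 ≤ R₀ * (2 / Y₀) ^ (φ ^ 2) * Real.exp 2 := by
    intro σ hun hY hlen hI
    have hY2 : 2 + pen A σ - c ≤ 2 := by
      have h1 := pen_le_cost A σ
      have h2 := hA σ hun
      have h3 := opt_le_one hm σ hun hlen
      have h4 : c * opt m σ ≤ c * 1 := mul_le_mul_of_nonneg_left h3 (by linarith)
      linarith
    refine ⟨hY2, ?_⟩
    have hq : √(((nR A σ : ℝ) + 1) / m) ≤ 2 := by
      rw [Real.sqrt_le_left (by norm_num), div_le_iff₀ hm0]
      have h1 := nA_add_nR A σ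
      have h2 : nR A σ + 1 ≤ m + 1 := by omega
      have h3 : ((nR A σ : ℝ) + 1) ≤ m + 1 := by exact_mod_cast h2
      nlinarith
    have hlog2 : Real.log (2 + pen A σ - c) ≤ Real.log 2 := Real.log_le_log hY hY2
    have hR0 : (0 : ℝ) < (nR A σ : ℝ) + 1 := by positivity
    have h1 : Real.log (nR A σ + 1) ≤
        Real.log R₀ + φ ^ 2 * (Real.log 2 - Real.log Y₀) + 2 := by
      have h2 : 1 / φ ^ 2 * (Real.log (nR A σ + 1) - Real.log R₀ -
          √((nR A σ + 1) / m)) ≤ Real.log 2 - Real.log Y₀ := by linarith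
      rw [one_div, inv_mul_le_iff₀ hφsq0] at h2
      linarith
    have h3 : Real.log (R₀ * (2 / Y₀) ^ (φ ^ 2) * Real.exp 2) =
        Real.log R₀ + φ ^ 2 * (Real.log 2 - Real.log Y₀) + 2 := by
      have h4 : (0 : ℝ) < 2 / Y₀ := by positivity
      rw [Real.log_mul (by positivity) (by positivity), Real.log_mul (by positivity)
        (by positivity), Real.log_exp, Real.log_rpow h4, Real.log_div (by norm_num) hY₀.ne']
    rw [← h3] at h1
    exact (Real.log_le_log_iff hR0 (by positivity)).mp h1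
  induction n with
  | zero =>
    intro σ hun hn hY hlen _ hI2
    obtain ⟨-, h1⟩ := key σ hun hY hlen hI2
    have h2 : (m : ℝ) ≤ nR A σ := by
      have : m ≤ nR A σ := by omega
      exact_mod_cast this
    have h3 : 0 < R₀ * (2 / Y₀) ^ (φ ^ 2) * Real.exp 2 := by positivity
    linarith
  | succ n ih =>
    intro σ hun hn hY hlen hI1 hI2
    obtain ⟨hY2, hRQ⟩ := key σ hun hY hlen hI2
    set Q := R₀ * (2 / Y₀) ^ (φ ^ 2) * Real.exp 2 with hQdef
    have hQ0 : 0 < Q := by positivity
    set Rr : ℝ := (nR A σ : ℝ) + 1 with hRr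
    have hRr1 : 1 ≤ Rr := by
      rw [hRr]
      have : (0 : ℝ) ≤ (nR A σ : ℝ) := Nat.cast_nonneg _
      linarith
    set q := √(Rr / m) with hq
    have hq0 : 0 < q := Real.sqrt_pos.mpr (by positivity)
    have hqq : q ^ 2 * m = Rr := by
      rw [hq, Real.sq_sqrt (by positivity)]
      field_simp
    have hq96 : q ≤ 1 / 96 := by
      by_contra hcon
      push Not at hcon
      have h1 : (1 / 96) ^ 2 < q ^ 2 := pow_lt_pow_left₀ hcon (by norm_num) (by norm_num)
      have h2 : (1 / 96 : ℝ) ^ 2 * m < q ^ 2 * m := mul_lt_mul_of_pos_right h1 hm0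
      rw [hqq] at h2
      nlinarith
    have hmR : 24 * m * q + 2 * Rr ≤ m / 2 := by
      have h1 : 24 * m * q ≤ m / 4 := by nlinarith
      have h2 : 2 * Rr ≤ m / 4 := by linarith
      linarith
    have hlenM : σ.length + 2 * (nR A σ + 1) ≤ m := by
      have : ((σ.length + 2 * (nR A σ + 1) : ℕ) : ℝ) ≤ (m : ℝ) := by
        push_cast
        linarith
      exact_mod_cast this
    obtain ⟨σ', hun', hlen', hlt, x, hx1, hx2, hR', hY'⟩ := stage hm A c hc hc1 hA (q / 4)
      (by positivity) (by linarith) σ hun hY hY2 hlenM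
    have hx0 : 0 < x := lt_of_lt_of_le (by positivity) hx1
    set Y := 2 + pen A σ - c with hYdef
    have hu0 : 0 < (1 - q / 4) / φ ^ 2 := div_pos (by linarith) hφsq0
    have hu1 : (1 - q / 4) / φ ^ 2 ≤ 1 := by
      rw [div_le_one hφsq0]
      nlinarith
    have hY'0 : 0 < 2 + pen A σ' - c := by
      rw [hY']
      have : 0 < 1 + (1 - q / 4) / φ ^ 2 * x := by positivity
      exact mul_pos hY this
    have hq' : √((Rr * (1 + x)) / m) = q * √(1 + x) := by
      rw [hq, ← Real.sqrt_mul (by positivity)]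
      congr 1
      ring
    have hs := sqrt_step x hx0.le hx2
    have hqs : q + q * x / 3 ≤ q * √(1 + x) := by
      have := mul_le_mul_of_nonneg_left hs hq0.le
      linarith
    refine ih σ' hun' (by omega) hY'0 (by omega) ?_ ?_
    · rw [hlen', hR', hq']
      push_cast
      have h1 : 2 * Rr ≤ 24 * m * (q * x / 3) := by
        rw [← hqq]
        have h3 : q * q ≤ q * (4 * x) := mul_le_mul_of_nonneg_left (by linarith) hq0.le
        have h4 : q ^ 2 * m ≤ q * (4 * x) * m := by
          rw [sq]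
          exact mul_le_mul_of_nonneg_right h3 hm0.le
        linarith
      have h2 : 24 * m * (q + q * x / 3) ≤ 24 * m * (q * √(1 + x)) :=
        mul_le_mul_of_nonneg_left hqs (by positivity)
      linarith
    · rw [hR', hq', hY']
      have e1 : Real.log (Rr * (1 + x)) = Real.log Rr + Real.log (1 + x) :=
        Real.log_mul (by positivity) (by positivity)
      have e2 : Real.log (Y * (1 + (1 - q / 4) / φ ^ 2 * x)) =
          Real.log Y + Real.log (1 + (1 - q / 4) / φ ^ 2 * x) :=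
        Real.log_mul hY.ne' (by positivity)
      have h1 : (1 - q / 4) / φ ^ 2 * Real.log (1 + x) ≤
          Real.log (1 + (1 - q / 4) / φ ^ 2 * x) := by
        rw [← Real.log_rpow (by positivity)]
        apply Real.log_le_log (Real.rpow_pos_of_pos (by positivity) _)
        exact rpow_one_add_le_one_add_mul_self (by linarith) hu0.le hu1
      have h2 : Real.log (1 + x) ≤ x := by
        have := Real.log_le_sub_one_of_pos (show 0 < 1 + x by positivity)
        linarith
      have h3 : 0 ≤ Real.log (1 + x) := Real.log_nonneg (by linarith)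
      rw [e1, e2]
      have h4 : 1 / φ ^ 2 * (Real.log (1 + x) - (q * √(1 + x) - q)) ≤
          (1 - q / 4) / φ ^ 2 * Real.log (1 + x) := by
        have e3 : (1 - q / 4) / φ ^ 2 * Real.log (1 + x) =
          1 / φ ^ 2 * ((1 - q / 4) * Real.log (1 + x)) := by ring
        rw [e3]
        apply mul_le_mul_of_nonneg_left _ (by positivity)
        have h5 : q / 4 * Real.log (1 + x) ≤ q / 4 * x :=
          mul_le_mul_of_nonneg_left h2 (by positivity)
        have h6 : q / 4 * x ≤ q * x / 3 := by nlinarith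
        linarith
      have e4 : 1 / φ ^ 2 * (Real.log Rr + Real.log (1 + x) - Real.log R₀ - q * √(1 + x)) =
          1 / φ ^ 2 * (Real.log Rr - Real.log R₀ - q) +
          1 / φ ^ 2 * (Real.log (1 + x) - (q * √(1 + x) - q)) := by ring
      rw [e4]
      linarith

/-- The initial phase: every job is rejected. -/
lemma initial (hm : 1 ≤ m) (A : Alg m) (c : ℝ) (hc : c < 3) (hc1 : 5 / 2 ≤ c)
    (hA : ∀ σ : List Job, Unit1 σ → cost σ (Alg.sched A σ) ≤ c * opt m σ) (k : ℕ) :
    ∃ σ : List Job, Unit1 σ ∧ σ.length = k ∧ nR A σ = k ∧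
      T (fun _ j => j.p) σ = pen A σ ∧
      0 < 1 - (c - 1) * pen A σ ∧ 1 - (c - 1) * pen A σ ≤ (1 / 2) ^ k := by
  induction k with
  | zero =>
    refine ⟨[], ?_, rfl, ?_, ?_, ?_, ?_⟩
    · intro j hj; simp at hj
    · simp [nR, T_nil]
    · simp [pen, T_nil]
    · simp [pen, T_nil]
    · simp [pen, T_nil]
  | succ k ih =>
    obtain ⟨σ, hun, hlen, hnR, hT, hE0, hE⟩ := ih
    set E := 1 - (c - 1) * pen A σ with hEdef
    have hp : 0 < E / 3 := by positivity
    have hnA : nA A σ = 0 := by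
      have := nA_add_nR A σ
      omega
    have hun' : Unit1 (σ ++ [uj (E / 3) hp]) := by
      intro j hj
      rw [List.mem_append, List.mem_singleton] at hj
      rcases hj with hj | hj
      · exact hun j hj
      · rw [hj]; rfl
    have hpj : (uj (E / 3) hp).p = E / 3 := rfl
    have hrej : A σ (uj (E / 3) hp) = none := by
      by_contra hne
      have h1 : nA A (σ ++ [uj (E / 3) hp]) = 1 := by
        rw [nA_concat, hnA, if_neg hne]
      have h2 := cost_ge_one A _ hun' (by omega)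
      have h3 : pen A (σ ++ [uj (E / 3) hp]) = pen A σ := by
        rw [pen_concat, if_neg hne, add_zero]
      have h4 := hA (σ ++ [uj (E / 3) hp]) hun'
      have h5 : opt m (σ ++ [uj (E / 3) hp]) ≤ T (fun _ j => j.p) (σ ++ [uj (E / 3) hp]) :=
        opt_le_sum hm _
      rw [T_concat, hT, hpj] at h5
      have h6 : c * opt m (σ ++ [uj (E / 3) hp]) ≤ c * (pen A σ + E / 3) :=
        mul_le_mul_of_nonneg_left h5 (by linarith)
      rw [h3] at h2
      have h7 : E ≤ c * (E / 3) := by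
        rw [hEdef] at *
        linarith
      nlinarith
    refine ⟨σ ++ [uj (E / 3) hp], hun', by simp [hlen], ?_, ?_, ?_, ?_⟩
    · rw [nR_concat, hnR, if_pos hrej]
    · rw [T_concat, pen_concat, if_pos hrej, hT]
    · rw [pen_concat, if_pos hrej, hpj]
      have : 1 - (c - 1) * (pen A σ + E / 3) = E * ((4 - c) / 3) := by
        rw [hEdef]; ring
      rw [this]
      apply mul_pos hE0
      linarith
    · rw [pen_concat, if_pos hrej, hpj]
      have : 1 - (c - 1) * (pen A σ + E / 3) = E * ((4 - c) / 3) := by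
        rw [hEdef]; ring
      rw [this, pow_succ]
      apply mul_le_mul hE (by linarith) (by linarith) (by positivity)

/-- A competitive algorithm needs few machines. -/
lemma few_machines (hm : 1 ≤ m) (g : ℝ) (hg : 0 < g) (hg1 : g ≤ 1 / 10)
    (hcomp : UnitCompetitive m (Real.goldenRatio ^ 2 - g)) (k : ℕ) (hk : (1 / 2 : ℝ) ^ k ≤ g) :
    (m : ℝ) < 9216 * ((k + 1) * (4 / g) ^ (Real.goldenRatio ^ 2) * Real.exp 2) := by
  obtain ⟨A, hA⟩ := hcomp
  have hφsq := Real.goldenRatio_sq
  have hφ1 : 1.618 < Real.goldenRatio := by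
    unfold Real.goldenRatio
    have : (2.236 : ℝ) < √5 := by
      apply Real.lt_sqrt_of_sq_lt
      norm_num
    linarith
  have hφ2 : Real.goldenRatio < 1.6181 := by
    unfold Real.goldenRatio
    have : √5 < (2.2361 : ℝ) := by
      rw [Real.sqrt_lt' (by norm_num)]
      norm_num
    linarith
  set φ := Real.goldenRatio with hφ
  set c := φ ^ 2 - g with hc
  have hc25 : 5 / 2 ≤ c := by
    rw [hc, hφsq]; linarith
  have hc3 : c < 3 := by
    rw [hc, hφsq]; linarith
  obtain ⟨σ, hun, hlen, hnR, -, hE0, hE⟩ := initial hm A c hc3 hc25 hA k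
  by_contra hcon
  push Not at hcon
  -- the value of `Y`
  have hY : g / 2 ≤ 2 + pen A σ - c := by
    have h1 : (c - 1) * pen A σ = 1 - (1 - (c - 1) * pen A σ) := by ring
    have h2 : 1 - g ≤ (c - 1) * pen A σ := by linarith
    have h3 : 2 * g ≤ -c ^ 2 + 3 * c - 1 := by
      have : -c ^ 2 + 3 * c - 1 = g * (2 * φ - 1 - g) := by
        have h4 : c = φ + 1 - g := by rw [hc, hφsq]
        rw [h4]
        have : φ * φ = φ + 1 := by rw [← sq, hφsq]
        nlinarith
      rw [this]
      nlinarith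
    have h5 : (c - 1) * (g / 2) ≤ (c - 1) * (2 + pen A σ - c) := by
      nlinarith
    exact le_of_mul_le_mul_left h5 (by linarith)
  have hY0 : 0 < 2 + pen A σ - c := by linarith
  have hpow : (2 / (2 + pen A σ - c)) ^ (φ ^ 2) ≤ (4 / g) ^ (φ ^ 2) := by
    apply Real.rpow_le_rpow (by positivity)
    · rw [div_le_div_iff₀ hY0 hg]
      linarith
    · positivity
  have hone : (1 : ℝ) ≤ (4 / g) ^ (φ ^ 2) := by
    apply Real.one_le_rpow
    · rw [le_div_iff₀ hg]
      linarith
    · positivity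
  have hexp : (1 : ℝ) ≤ Real.exp 2 := Real.one_le_exp (by norm_num)
  have hk0 : (0 : ℝ) ≤ k := Nat.cast_nonneg k
  refine stages hm A c (by rw [hc]; linarith) (by linarith) hA (k + 1) (2 + pen A σ - c)
    (by linarith) hY0 ?_ ?_ m σ hun (by omega) hY0 ?_ ?_ ?_
  · refine le_trans ?_ hcon
    apply mul_le_mul_of_nonneg_left _ (by norm_num)
    apply mul_le_mul_of_nonneg_right _ (by positivity)
    exact mul_le_mul_of_nonneg_left hpow (by positivity)
  · have h1 : ((k : ℝ) + 1) * 1 ≤ (k + 1) * (4 / g) ^ (φ ^ 2) :=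
      mul_le_mul_of_nonneg_left hone (by positivity)
    have h2 : ((k : ℝ) + 1) * 1 * 1 ≤ (k + 1) * (4 / g) ^ (φ ^ 2) * Real.exp 2 :=
      mul_le_mul h1 hexp (by norm_num) (by positivity)
    linarith
  · have h1 : ((k : ℝ) + 1) * 1 ≤ (k + 1) * (4 / g) ^ (φ ^ 2) :=
      mul_le_mul_of_nonneg_left hone (by positivity)
    have h2 : ((k : ℝ) + 1) * 1 * 1 ≤ (k + 1) * (4 / g) ^ (φ ^ 2) * Real.exp 2 :=
      mul_le_mul h1 hexp (by norm_num) (by positivity)
    have h3 : (k : ℝ) ≤ m := by linarith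
    rw [hlen]
    exact_mod_cast h3
  · rw [hlen, hnR]
    have : 0 ≤ 24 * (m : ℝ) * √(((k : ℝ) + 1) / m) := by positivity
    linarith
  · rw [hnR]
    have h1 : 0 ≤ √(((k : ℝ) + 1) / m) := Real.sqrt_nonneg _
    have h2 : 1 / φ ^ 2 * (Real.log (k + 1) - Real.log (k + 1) - √(((k : ℝ) + 1) / m)) ≤ 0 := by
      apply mul_nonpos_of_nonneg_of_nonpos (by positivity)
      linarith
    linarith

/-- The same bound with explicit parameters. -/
lemma few_machines' : ∃ K : ℝ, 1 ≤ K ∧ ∀ m : ℕ, 1 ≤ m → ∀ g : ℝ, 0 < g → g ≤ 1 / 10 →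
    UnitCompetitive m (Real.goldenRatio ^ 2 - g) →
    (m : ℝ) < K * Real.log (4 / g) * g ^ (-(Real.goldenRatio ^ 2)) := by
  have hφ0 := Real.goldenRatio_pos
  have hφ1 := Real.one_lt_goldenRatio
  set φ := Real.goldenRatio with hφ
  refine ⟨9216 * 4 * (4 ^ (φ ^ 2) * Real.exp 2), ?_, ?_⟩
  · have h1 : (1 : ℝ) ≤ 4 ^ (φ ^ 2) := Real.one_le_rpow (by norm_num) (by positivity)
    have h2 : 1 ≤ Real.exp 2 := Real.one_le_exp (by positivity)
    nlinarith
  intro m hm g hg hg1 hcomp
  set Λ := Real.log (4 / g) with hΛ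
  have hΛ1 : 1 ≤ Λ := by
    rw [hΛ, Real.le_log_iff_exp_le (by positivity)]
    have := Real.exp_one_lt_d9
    have h40 : (40 : ℝ) ≤ 4 / g := by
      rw [le_div_iff₀ hg]
      linarith
    linarith
  have hΛ0 : 0 < Λ := by linarith
  set k := ⌈2 * Λ⌉₊ with hk
  have hk1 : 2 * Λ ≤ k := Nat.le_ceil _
  have hk2 : (k : ℝ) < 2 * Λ + 1 := Nat.ceil_lt_add_one (by positivity)
  have hkg : (1 / 2 : ℝ) ^ k ≤ g := by
    have h1 : (1 / 2 : ℝ) ^ k = Real.exp (-(k * Real.log 2)) := by
      rw [← Real.rpow_natCast, Real.rpow_def_of_pos (by norm_num)]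
      congr 1
      rw [one_div, Real.log_inv]
      ring
    have h2 : g = 4 * Real.exp (-Λ) := by
      rw [Real.exp_neg, hΛ, Real.exp_log (by positivity)]
      field_simp
    have h3 : Real.exp (-(k * Real.log 2)) ≤ Real.exp (-Λ) := by
      apply Real.exp_le_exp.mpr
      have := Real.log_two_gt_d9
      nlinarith
    have h4 := Real.exp_pos (-Λ)
    rw [h1]
    linarith
  have hmain := few_machines hm g hg hg1 hcomp k hkg
  have e2 : (4 / g) ^ (φ ^ 2) = 4 ^ (φ ^ 2) * g ^ (-(φ ^ 2)) := by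
    rw [Real.div_rpow (by norm_num) hg.le, Real.rpow_neg hg.le]
    ring
  rw [e2] at hmain
  have hP : (0 : ℝ) < 4 ^ (φ ^ 2) := by positivity
  have hG : 0 < g ^ (-(φ ^ 2)) := Real.rpow_pos_of_pos hg _
  have hE : 0 < Real.exp 2 := Real.exp_pos 2
  have h41 : (k : ℝ) + 1 ≤ 4 * Λ := by linarith
  have h42 : ((k : ℝ) + 1) * (4 ^ (φ ^ 2) * g ^ (-(φ ^ 2))) * Real.exp 2 ≤
      (4 * Λ) * (4 ^ (φ ^ 2) * g ^ (-(φ ^ 2))) * Real.exp 2 := by
    apply mul_le_mul_of_nonneg_right _ hE.le
    exact mul_le_mul_of_nonneg_right h41 (by positivity)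
  calc (m : ℝ) < 9216 * ((k + 1) * (4 ^ (φ ^ 2) * g ^ (-(φ ^ 2))) * Real.exp 2) := hmain
    _ ≤ 9216 * ((4 * Λ) * (4 ^ (φ ^ 2) * g ^ (-(φ ^ 2))) * Real.exp 2) :=
        mul_le_mul_of_nonneg_left h42 (by norm_num)
    _ = _ := by ring

/-- The gap is at most `C * (log m / m) ^ (1 / φ²)`, already for unit running times. -/
theorem gap_upper : ∃ C : ℝ, 0 < C ∧ ∀ m : ℕ, 2 ≤ m →
    1 + Real.goldenRatio - Runit m ≤
      C * (Real.log m / m) ^ (1 / Real.goldenRatio ^ 2) := by
  obtain ⟨K, hK1, hK⟩ := few_machines'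
  have hφ0 := Real.goldenRatio_pos
  have hφ1 := Real.one_lt_goldenRatio
  have hφ2 := Real.goldenRatio_lt_two
  have hφsq := Real.goldenRatio_sq
  set φ := Real.goldenRatio with hφ
  have hφsq0 : 0 < φ ^ 2 := by positivity
  set a := 1 / φ ^ 2 with ha
  have ha0 : 0 < a := by positivity
  have ha1 : a ≤ 1 := by
    rw [ha, div_le_one hφsq0]
    nlinarith
  set C' := (6 * K) ^ a with hC'
  have hC'1 : 1 ≤ C' := Real.one_le_rpow (by linarith) ha0.le
  refine ⟨30 * C', by linarith, fun m hm2 => ?_⟩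
  have hm : 1 ≤ m := by omega
  have hm1 : (2 : ℝ) ≤ m := by exact_mod_cast hm2
  have hm0 : (0 : ℝ) < m := by linarith
  set L := Real.log m with hL
  have hL2 : 1 / 2 ≤ L := by
    have h1 : Real.log 2 ≤ L := Real.log_le_log (by norm_num) hm1
    have := Real.log_two_gt_d9
    linarith
  have hq0 : 0 < L / m := by positivity
  set g := C' * (L / m) ^ a with hg
  have hg0 : 0 < g := by
    have := Real.rpow_pos_of_pos hq0 a
    positivity
  have hgoal : 30 * C' * (L / m) ^ a = 30 * g := by rw [hg]; ring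
  rw [hgoal]
  have hR0 : 0 ≤ Runit m := by
    refine le_csInf ⟨(m : ℝ), Competitive.unit (competitive_trivial m hm)⟩ ?_
    intro c hc
    by_contra hcon
    push Not at hcon
    exact not_unitCompetitive_neg hm c hcon hc
  by_cases hg1 : g ≤ 1 / 10
  · have hnot : ¬ UnitCompetitive m (φ ^ 2 - g) := by
      intro hcomp
      have h1 := hK m hm g hg0 hg1 hcomp
      -- bound on the logarithm
      have hgm : 1 / (2 * (m : ℝ)) ≤ g := by
        have h2 : 1 / (2 * (m : ℝ)) ≤ L / m := by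
          rw [div_le_div_iff₀ (by positivity) hm0]
          nlinarith
        have h3 : (1 / (2 * (m : ℝ))) ^ (1 : ℝ) ≤ (1 / (2 * (m : ℝ))) ^ a :=
          Real.rpow_le_rpow_of_exponent_ge (by positivity) (by
            rw [div_le_one (by positivity)]; linarith) ha1
        rw [Real.rpow_one] at h3
        have h4 : (1 / (2 * (m : ℝ))) ^ a ≤ (L / m) ^ a :=
          Real.rpow_le_rpow (by positivity) h2 ha0.le
        have h5 : 0 < (L / m) ^ a := Real.rpow_pos_of_pos hq0 a
        rw [hg]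
        nlinarith
      have hΛ : Real.log (4 / g) ≤ 6 * L := by
        have h2 : 4 / g ≤ 8 * m := by
          rw [div_le_iff₀ hg0]
          rw [div_le_iff₀ (by positivity)] at hgm
          nlinarith
        have h3 : Real.log (4 / g) ≤ Real.log (8 * m) :=
          Real.log_le_log (by positivity) h2
        have h4 : Real.log (8 * m) = Real.log 8 + Real.log m :=
          Real.log_mul (by norm_num) hm0.ne'
        have h5 : Real.log 8 = 3 * Real.log 2 := by
          rw [show (8 : ℝ) = 2 ^ 3 by norm_num, Real.log_pow]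
          norm_num
        have h6 : Real.log 2 ≤ L := Real.log_le_log (by norm_num) hm1
        rw [h4, h5] at h3
        linarith
      have hpow : g ^ (-(φ ^ 2)) = m / (6 * K * L) := by
        have e1 : g = (6 * K * (L / m)) ^ a := by
          rw [hg, hC', Real.mul_rpow (by positivity) hq0.le]
        rw [e1, ← Real.rpow_mul (by positivity)]
        have e2 : a * -φ ^ 2 = -1 := by
          rw [ha]
          field_simp
        rw [e2, Real.rpow_neg_one]
        field_simp
      rw [hpow] at h1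
      have h3 : K * Real.log (4 / g) * (m / (6 * K * L)) ≤
          K * (6 * L) * (m / (6 * K * L)) := by
        apply mul_le_mul_of_nonneg_right _ (by positivity)
        apply mul_le_mul_of_nonneg_left hΛ (by linarith)
      have h4 : K * (6 * L) * (m / (6 * K * L)) = m := by
        have : K ≠ 0 := by linarith
        field_simp
      linarith
    have h1 := le_Runit hm _ hnot
    rw [hφsq] at h1
    linarith
  · push Not at hg1
    linarith

end Adversary

end Pool.Agent.H704.Rej
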