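import Pool.Agent.H704.Rej.Base

/-!
# The algorithm for unit running times
-/

set_option autoImplicit false

namespace Pool.Agent.H704.Rej

open Real

section Analysis

/-- The threshold function. -/
noncomputable def thr (c L Z₀ Z : ℝ) : ℝ := Z / c / (1 + L * (Z / Z₀) ^ c)

lemma thr_pos {c L Z₀ Z : ℝ} (hc : 0 < c) (hL : 0 ≤ L) (h0 : 0 < Z₀) (hZ : 0 < Z) :
    0 < thr c L Z₀ Z := by
  unfold thr
  have : 0 < (Z / Z₀) ^ c := rpow_pos_of_pos (by positivity) _
  positivity

lemma thr_le {c L Z₀ Z : ℝ} (hc : 2 ≤ c) (hL : 0 ≤ L) (h0 : 0 < Z₀) (hZ : 0 < Z) :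
    thr c L Z₀ Z ≤ Z / 2 := by
  unfold thr
  have h1 : 0 < (Z / Z₀) ^ c := rpow_pos_of_pos (by positivity) _
  have h2 : Z / c / (1 + L * (Z / Z₀) ^ c) ≤ Z / c := by
    apply div_le_self (by positivity)
    have : 0 ≤ L * (Z / Z₀) ^ c := by positivity
    linarith
  have h3 : Z / c ≤ Z / 2 := div_le_div_of_nonneg_left hZ.le (by norm_num) hc
  linarith

lemma thr_anti {c L Z₀ Z p : ℝ} (hc : 2 ≤ c) (hL : 1 ≤ L) (h0 : 0 < Z₀) (hZ : Z₀ ≤ Z)
    (hp : 0 ≤ p) : thr c L Z₀ (Z + p) ≤ thr c L Z₀ Z := by
  have hZ0 : 0 < Z := lt_of_lt_of_le h0 hZ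
  set x := p / Z with hx
  have hx0 : 0 ≤ x := by positivity
  have hpx : p = x * Z := by rw [hx]; field_simp
  set y := (Z / Z₀) ^ c with hy
  have hy1 : 1 ≤ y := one_le_rpow (by rw [le_div_iff₀ h0]; linarith) (by linarith)
  set w := (1 + x) ^ c with hw
  have hw1 : 1 + c * x ≤ w := by
    exact one_add_mul_self_le_rpow_one_add (by linarith) (by linarith)
  have hyw : ((Z + p) / Z₀) ^ c = y * w := by
    rw [hy, hw, ← mul_rpow (by positivity) (by positivity)]
    congr 1
    rw [hpx]; ring
  unfold thr
  rw [hyw, ← hy, div_div, div_div, div_le_div_iff₀ (by positivity) (by positivity), hpx]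
  have hs : 1 ≤ L * y := by nlinarith
  have h1 : (L * y) * (1 + c * x) ≤ (L * y) * w := mul_le_mul_of_nonneg_left hw1 (by linarith)
  have h2 : (1 + x) * (1 + L * y) ≤ 1 + (L * y) * w := by
    nlinarith [mul_nonneg hx0 (sub_nonneg.mpr hs), mul_nonneg (mul_nonneg hx0 (sub_nonneg.mpr hc)) (by linarith : 0 ≤ L * y)]
  have h3 : 0 ≤ Z * c := by positivity
  calc (Z + x * Z) * (c * (1 + L * y)) = (Z * c) * ((1 + x) * (1 + L * y)) := by ring
    _ ≤ (Z * c) * (1 + (L * y) * w) := mul_le_mul_of_nonneg_left h2 h3
    _ = _ := by ring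

/-- The key inequality for one rejected job. -/
lemma thr_step {c L Z₀ Z p f f' : ℝ} (hc : 2 ≤ c) (hL : 1 ≤ L) (h0 : 0 < Z₀) (hZ : Z₀ ≤ Z)
    (hp : 0 ≤ p) (hpθ : p ≤ thr c L Z₀ Z) (hf : Z / c ≤ f)
    (hf' : thr c L Z₀ (Z + p) / thr c L Z₀ Z * f ≤ f') :
    (Z + p) / c ≤ f' + min p (thr c L Z₀ (Z + p)) := by
  have hc0 : 0 < c := by linarith
  have hZ0 : 0 < Z := lt_of_lt_of_le h0 hZ
  set x := p / Z with hx
  have hx0 : 0 ≤ x := by positivity
  have hpx : p = x * Z := by rw [hx]; field_simp
  set y := (Z / Z₀) ^ c with hy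
  have hy1 : 1 ≤ y := one_le_rpow (by rw [le_div_iff₀ h0]; linarith) (by linarith)
  set w := (1 + x) ^ c with hw
  have hw1 : 1 ≤ w := one_le_rpow (by linarith) (by linarith)
  have hyw : ((Z + p) / Z₀) ^ c = y * w := by
    rw [hy, hw, ← mul_rpow (by positivity) (by positivity)]
    congr 1
    rw [hpx]; ring
  set q := L * y with hq
  have hq1 : 1 ≤ q := by nlinarith
  have hθ : thr c L Z₀ Z = Z / c / (1 + q) := rfl
  have hθ' : thr c L Z₀ (Z + p) = (Z + p) / c / (1 + q * w) := by
    unfold thr
    rw [hyw, hq]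
    ring_nf
  have hs' : 0 < 1 + q * w := by positivity
  have hratio : thr c L Z₀ (Z + p) / thr c L Z₀ Z * (Z / c) =
      (Z + p) / c * ((1 + q) / (1 + q * w)) := by
    rw [hθ, hθ']
    field_simp
  have hr0 : 0 ≤ thr c L Z₀ (Z + p) / thr c L Z₀ Z := by
    rw [hθ, hθ']
    positivity
  have hf1 : (Z + p) / c * ((1 + q) / (1 + q * w)) ≤ f' := by
    rw [← hratio]
    exact (mul_le_mul_of_nonneg_left hf hr0).trans hf'
  have hZp : 0 ≤ (Z + p) / c := by positivity
  -- Bernoulli type bounds
  have hb1 : (1 + x) * (w - 1) ≤ c * x * w := by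
    have h1 : 1 - (c - 1) * x ≤ (1 + x) / w := by
      have e1 : (1 + x) / w = exp (-((c - 1) * log (1 + x))) := by
        have h2 : 0 < 1 + x := by linarith
        rw [hw, show -((c - 1) * log (1 + x)) = log (1 + x) - c * log (1 + x) by ring,
          exp_sub, exp_log h2, rpow_def_of_pos h2, mul_comm (log (1 + x)) c]
      have h3 : log (1 + x) ≤ x := by
        have := log_le_sub_one_of_pos (show 0 < 1 + x by linarith)
        linarith
      have h4 := add_one_le_exp (-((c - 1) * log (1 + x)))
      have h5 : (c - 1) * log (1 + x) ≤ (c - 1) * x := mul_le_mul_of_nonneg_left h3 (by linarith)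
      rw [e1]
      linarith
    rw [le_div_iff₀ (by linarith)] at h1
    nlinarith
  rcases le_total p (thr c L Z₀ (Z + p)) with hcase | hcase
  · rw [min_eq_left hcase]
    have h1 : (Z + p) / c ≤ (Z + p) / c * ((1 + q) / (1 + q * w)) + p := by
      have h2 : (Z + p) / c - (Z + p) / c * ((1 + q) / (1 + q * w)) =
          Z / c * ((1 + x) * (q * (w - 1))) / (1 + q * w) := by
        rw [hpx]
        field_simp
        ring
      have h3 : Z / c * ((1 + x) * (q * (w - 1))) / (1 + q * w) ≤ p := by
        rw [div_le_iff₀ hs']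
        have h4 : (1 + x) * (q * (w - 1)) ≤ q * (c * x * w) := by
          have := mul_le_mul_of_nonneg_left hb1 (by linarith : 0 ≤ q)
          linarith
        have h5 : Z / c * ((1 + x) * (q * (w - 1))) ≤ Z / c * (q * (c * x * w)) :=
          mul_le_mul_of_nonneg_left h4 (by positivity)
        have h6 : Z / c * (q * (c * x * w)) = x * Z * (q * w) := by
          field_simp
        rw [hpx]
        have h7 : 0 ≤ x * Z := by positivity
        linarith
      linarith
    linarith
  · rw [min_eq_right hcase, hθ']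
    have hxs : c * x ≤ 1 / (1 + q) := by
      have h1 : x * Z ≤ Z / c / (1 + q) := by rw [← hpx, ← hθ]; exact hpθ
      have h2 : Z / c / (1 + q) = 1 / (1 + q) * (Z / c) := by ring
      rw [h2] at h1
      have h3 : x ≤ 1 / (1 + q) / c := by
        have h4 : x * Z ≤ (1 / (1 + q) / c) * Z := by
          calc x * Z ≤ 1 / (1 + q) * (Z / c) := h1
            _ = _ := by ring
        exact le_of_mul_le_mul_right h4 hZ0
      rw [le_div_iff₀ hc0] at h3
      linarith
    have hw2 : w ≤ exp (1 / (1 + q)) := by
      have h2 : 0 < 1 + x := by linarith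
      rw [hw, rpow_def_of_pos h2]
      apply exp_le_exp.mpr
      have h3 : log (1 + x) ≤ x := by
        have := log_le_sub_one_of_pos h2
        linarith
      have h4 : log (1 + x) * c ≤ x * c := mul_le_mul_of_nonneg_right h3 hc0.le
      linarith
    have hqw : q * w ≤ 1 + q := by
      have h3 : 1 - 1 / (1 + q) ≤ exp (-(1 / (1 + q))) := by
        have := add_one_le_exp (-(1 / (1 + q)))
        linarith
      have h4 : q / (1 + q) = 1 - 1 / (1 + q) := by
        field_simp
        ring
      have h5 : q / (1 + q) * w ≤ 1 := by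
        rw [h4]
        calc (1 - 1 / (1 + q)) * w ≤ exp (-(1 / (1 + q))) * w :=
              mul_le_mul_of_nonneg_right h3 (by linarith)
          _ ≤ exp (-(1 / (1 + q))) * exp (1 / (1 + q)) :=
              mul_le_mul_of_nonneg_left hw2 (exp_pos _).le
          _ = 1 := by rw [← exp_add]; simp
      have h6 : q / (1 + q) * w = q * w / (1 + q) := by ring
      rw [h6, div_le_one (by positivity)] at h5
      exact h5
    have h1 : (Z + p) / c ≤ (Z + p) / c * ((1 + q) / (1 + q * w)) +
        (Z + p) / c / (1 + q * w) := by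
      have h2 : (Z + p) / c * ((1 + q) / (1 + q * w)) + (Z + p) / c / (1 + q * w) =
          (Z + p) / c * ((2 + q) / (1 + q * w)) := by
        field_simp
        ring
      rw [h2]
      have h3 : 1 ≤ (2 + q) / (1 + q * w) := by
        rw [le_div_iff₀ hs']
        linarith
      nlinarith
    linarith

/-- One rejection in the initial phase. -/
lemma initial_step {c E E' p θ Ec : ℝ} (hc1 : 2 ≤ c) (hc2 : c ≤ 27 / 10) (hE : 0 < E)
    (hE' : E' = E - (c - 1) * p) (hp : 0 < p) (hpE : c * p < E) (hθ0 : 0 < θ) (hθ : θ ≤ Ec) :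
    θ / 5 * (log (max E Ec) - log (max E' Ec)) ≤ min p θ := by
  have hEc : 0 < Ec := by linarith
  have hE'E : E / c < E' := by
    rw [hE', div_lt_iff₀ (by linarith)]
    nlinarith
  have hEc0 : 0 < E / c := by positivity
  have hE'0 : 0 < E' := by linarith
  have hEE : E' ≤ E := by rw [hE']; nlinarith
  rcases le_total E Ec with h | h
  · rw [max_eq_right h, max_eq_right (hEE.trans h), sub_self, mul_zero]
    exact le_min hp.le hθ0.le
  · rw [max_eq_left h]
    have h1 : log E' ≤ log (max E' Ec) := log_le_log hE'0 (le_max_left _ _)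
    have h2 : log E - log E' ≤ (c - 1) * p / E' := by
      rw [← log_div hE.ne' hE'0.ne']
      have := log_le_sub_one_of_pos (show 0 < E / E' by positivity)
      have e : E / E' - 1 = (c - 1) * p / E' := by
        rw [hE'] at *
        field_simp
        ring
      linarith
    have h3 : (c - 1) * p / E' ≤ 5 * (p / E) := by
      have h4 : (c - 1) * p / E' ≤ (c - 1) * p / (E / c) :=
        div_le_div_of_nonneg_left (by nlinarith) hEc0 hE'E.le
      have h5 : (c - 1) * p / (E / c) = (c * (c - 1)) * (p / E) := by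
        field_simp
      have h6 : c * (c - 1) ≤ 5 := by nlinarith
      have h7 : (c * (c - 1)) * (p / E) ≤ 5 * (p / E) :=
        mul_le_mul_of_nonneg_right h6 (by positivity)
      linarith
    have h8 : log E - log (max E' Ec) ≤ 5 * (p / E) := by linarith
    have h9 : p / E ≤ 1 := by
      rw [div_le_one hE]
      nlinarith
    apply le_min
    · calc θ / 5 * (log E - log (max E' Ec)) ≤ θ / 5 * (5 * (p / E)) :=
            mul_le_mul_of_nonneg_left h8 (by positivity)
        _ = (θ / E) * p := by ring
        _ ≤ 1 * p := by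
            apply mul_le_mul_of_nonneg_right _ hp.le
            rw [div_le_one hE]
            linarith
        _ = p := one_mul p
    · calc θ / 5 * (log E - log (max E' Ec)) ≤ θ / 5 * (5 * (p / E)) :=
            mul_le_mul_of_nonneg_left h8 (by positivity)
        _ = θ * (p / E) := by ring
        _ ≤ θ * 1 := mul_le_mul_of_nonneg_left h9 hθ0.le
        _ = θ := mul_one θ

end Analysis

section Algorithm

/-- State of the algorithm: number of accepted jobs, penalties paid before the first acceptance,
penalties paid afterwards. -/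
structure St where
  a : ℕ
  S₀ : ℝ
  W : ℝ

/-- The acceptance rule. -/
def accepts (c : ℝ) (Θ : ℝ → ℝ → ℝ) (s : St) (p : ℝ) : Prop :=
  Θ s.S₀ s.W < p ∧ (s.a = 0 → 1 + s.S₀ ≤ c * (s.S₀ + p))

open Classical in
/-- One step. -/
noncomputable def step (c : ℝ) (Θ : ℝ → ℝ → ℝ) (s : St) (j : Job) : St :=
  if accepts c Θ s j.p then ⟨s.a + 1, s.S₀, s.W⟩
  else if s.a = 0 then ⟨s.a, s.S₀ + j.p, s.W⟩ else ⟨s.a, s.S₀, s.W + j.p⟩

/-- The state after a sequence. -/
noncomputable def st (c : ℝ) (Θ : ℝ → ℝ → ℝ) (σ : List Job) : St :=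
  σ.foldl (step c Θ) ⟨0, 0, 0⟩

open Classical in
/-- The algorithm: accepted jobs are placed cyclically. -/
noncomputable def alg (m : ℕ) (hm : 0 < m) (c : ℝ) (Θ : ℝ → ℝ → ℝ) : Alg m :=
  fun σ j => if accepts c Θ (st c Θ σ) j.p then some ⟨(st c Θ σ).a % m, Nat.mod_lt _ hm⟩ else none

lemma st_nil (c : ℝ) (Θ : ℝ → ℝ → ℝ) : st c Θ [] = ⟨0, 0, 0⟩ := rfl

lemma st_concat (c : ℝ) (Θ : ℝ → ℝ → ℝ) (σ : List Job) (j : Job) :
    st c Θ (σ ++ [j]) = step c Θ (st c Θ σ) j := by
  simp [st]

variable {m : ℕ} (hm : 0 < m) (c : ℝ) (Θ : ℝ → ℝ → ℝ)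

lemma alg_none (σ : List Job) (j : Job) :
    alg m hm c Θ σ j = none ↔ ¬ accepts c Θ (st c Θ σ) j.p := by
  unfold alg
  split_ifs with h <;> simp [h]

lemma pen_alg (σ : List Job) :
    pen (alg m hm c Θ) σ = (st c Θ σ).S₀ + (st c Θ σ).W := by
  induction σ using List.reverseRecOn with
  | nil => simp [pen, T_nil, st_nil]
  | append_singleton σ j ih =>
    rw [pen_concat, ih, st_concat]
    unfold step
    by_cases h : accepts c Θ (st c Θ σ) j.p
    · rw [if_neg (by rw [alg_none]; simpa using h), if_pos h]
      simp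
    · rw [if_pos (by rw [alg_none]; exact h), if_neg h]
      by_cases h0 : (st c Θ σ).a = 0
      · rw [if_pos h0]
        simp only
        ring
      · rw [if_neg h0]
        simp only
        ring

lemma nA_alg (σ : List Job) : nA (alg m hm c Θ) σ = (st c Θ σ).a := by
  induction σ using List.reverseRecOn with
  | nil => simp [nA, T_nil, st_nil]
  | append_singleton σ j ih =>
    rw [nA_concat, ih, st_concat]
    unfold step
    by_cases h : accepts c Θ (st c Θ σ) j.p
    · rw [if_neg (by rw [alg_none]; simpa using h), if_pos h]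
    · rw [if_pos (by rw [alg_none]; exact h), if_neg h]
      by_cases h0 : (st c Θ σ).a = 0
      · rw [if_pos h0, add_zero]
      · rw [if_neg h0, add_zero]

lemma cyc (a m k : ℕ) (hk : k < m) :
    (a + 1 + m - 1 - k) / m = (a + m - 1 - k) / m + if a % m = k then 1 else 0 := by
  have h1 : a + 1 + m - 1 - k = (a + m - 1 - k) + 1 := by omega
  rw [h1, Nat.succ_div]
  congr 1
  have h2 : a + m - 1 - k + 1 = a + m - k := by omega
  rw [h2]
  have h3 : (m ∣ a + m - k) ↔ a % m = k := by
    constructor
    · rintro ⟨q, hq⟩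
      have h4 : a + m = m * q + k := by omega
      have h5 : (a + m) % m = k := by
        rw [h4, Nat.mul_add_mod, Nat.mod_eq_of_lt hk]
      simpa using h5
    · intro h
      have h4 := Nat.div_add_mod a m
      rw [h] at h4
      refine ⟨a / m + 1, ?_⟩
      rw [mul_add, mul_one]
      omega
  by_cases h : a % m = k
  · rw [if_pos h, if_pos (h3.mpr h)]
  · rw [if_neg h, if_neg (fun hh => h (h3.mp hh))]

lemma cnt_alg (k : Fin m) (σ : List Job) :
    cnt (alg m hm c Θ) k σ = ((st c Θ σ).a + m - 1 - k) / m := by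
  induction σ using List.reverseRecOn with
  | nil =>
    simp only [cnt, T_nil, st_nil]
    symm
    apply Nat.div_eq_of_lt
    omega
  | append_singleton σ j ih =>
    rw [cnt_concat, ih, st_concat]
    unfold step
    by_cases h : accepts c Θ (st c Θ σ) j.p
    · rw [if_pos h]
      simp only
      rw [cyc _ m k k.2]
      congr 1
      unfold alg
      rw [if_pos h]
      simp only [Option.some.injEq, Fin.ext_iff]
    · rw [if_neg h]
      have h1 : alg m hm c Θ σ j = none := by rw [alg_none]; exact h
      rw [h1]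
      by_cases h0 : (st c Θ σ).a = 0
      · rw [if_pos h0]
        simp
      · rw [if_neg h0]
        simp

lemma cost_alg (σ : List Job) (hu : Unit1 σ) :
    cost σ (Alg.sched (alg m hm c Θ) σ) ≤
      ((((st c Θ σ).a + m - 1) / m : ℕ) : ℝ) + ((st c Θ σ).S₀ + (st c Θ σ).W) := by
  rw [cost_eq, pen_alg]
  have hN : Nonempty (Fin m) := ⟨⟨0, hm⟩⟩
  have h : (⨆ k, load σ (Alg.sched (alg m hm c Θ) σ) k) ≤
      ((((st c Θ σ).a + m - 1) / m : ℕ) : ℝ) := by
    apply ciSup_le
    intro k
    rw [load_cnt _ _ _ hu, cnt_alg]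
    have : ((st c Θ σ).a + m - 1 - k) / m ≤ ((st c Θ σ).a + m - 1) / m :=
      Nat.div_le_div_right (by omega)
    exact_mod_cast this
  linarith

/-- Truncated penalties of the rejected jobs. -/
noncomputable def G (A : Alg m) (σ : List Job) (θ : ℝ) : ℝ :=
  T (fun h j => if A h j = none then min j.p θ else 0) σ

/-- All penalties. -/
noncomputable def P (σ : List Job) : ℝ := T (fun _ j => j.p) σ

lemma P_concat (σ : List Job) (j : Job) : P (σ ++ [j]) = P σ + j.p := T_concat _ _ _

lemma G_concat (A : Alg m) (σ : List Job) (j : Job) (θ : ℝ) :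
    G A (σ ++ [j]) θ = G A σ θ + if A σ j = none then min j.p θ else 0 := T_concat _ _ _

lemma G_mono (A : Alg m) (σ : List Job) {θ θ' : ℝ} (h : θ ≤ θ') : G A σ θ ≤ G A σ θ' := by
  induction σ using List.reverseRecOn with
  | nil => simp [G, T_nil]
  | append_singleton σ j ih =>
    rw [G_concat, G_concat]
    split_ifs
    · have : min j.p θ ≤ min j.p θ' := min_le_min_left _ h
      linarith
    · linarith

lemma G_nonneg (A : Alg m) (σ : List Job) {θ : ℝ} (h : 0 ≤ θ) : 0 ≤ G A σ θ := by
  induction σ using List.reverseRecOn with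
  | nil => simp [G, T_nil]
  | append_singleton σ j ih =>
    rw [G_concat]
    split_ifs
    · have : 0 ≤ min j.p θ := le_min j.p_pos.le h
      linarith
    · linarith

lemma G_ratio (A : Alg m) (σ : List Job) {θ θ' : ℝ} (h0 : 0 < θ) (h' : 0 ≤ θ') (h : θ' ≤ θ) :
    θ' / θ * G A σ θ ≤ G A σ θ' := by
  induction σ using List.reverseRecOn with
  | nil => simp [G, T_nil]
  | append_singleton σ j ih =>
    rw [G_concat, G_concat, mul_add]
    split_ifs
    · have : θ' / θ * min j.p θ ≤ min j.p θ' := by
        have hr : θ' / θ ≤ 1 := by rw [div_le_one h0]; exact h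
        have hr0 : 0 ≤ θ' / θ := by positivity
        apply le_min
        · calc θ' / θ * min j.p θ ≤ θ' / θ * j.p :=
                mul_le_mul_of_nonneg_left (min_le_left _ _) hr0
            _ ≤ 1 * j.p := mul_le_mul_of_nonneg_right hr j.p_pos.le
            _ = j.p := one_mul _
        · calc θ' / θ * min j.p θ ≤ θ' / θ * θ :=
                mul_le_mul_of_nonneg_left (min_le_right _ _) hr0
            _ = θ' := by field_simp
      linarith
    · simp only [mul_zero, add_zero]
      exact ih

/-- Lower bound for all truncated penalties. -/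
lemma trunc_sum (A : Alg m) (σ : List Job) (θ : ℝ)
    (h : ∀ i : Fin σ.length, A (σ.take i) (σ.get i) ≠ none → θ ≤ (σ.get i).p) :
    G A σ θ + nA A σ * θ ≤ ∑ i : Fin σ.length, min (σ.get i).p θ := by
  have e : G A σ θ + nA A σ * θ = ∑ i : Fin σ.length,
      ((if A (σ.take i) (σ.get i) = none then min (σ.get i).p θ else 0) +
        (if A (σ.take i) (σ.get i) = none then 0 else 1) * θ) := by
    rw [Finset.sum_add_distrib, ← Finset.sum_mul]
    congr 1
    congr 1
    unfold nA T
    push_cast
    rfl
  rw [e]
  apply Finset.sum_le_sum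
  intro i _
  by_cases hi : A (σ.take i) (σ.get i) = none
  · rw [if_pos hi, if_pos hi]
    simp
  · rw [if_neg hi, if_neg hi]
    rw [min_eq_right (h i hi)]
    simp

include hm in
/-- Any schedule of a unit-time instance: some makespan `j`, at most `j m` accepted jobs. -/
lemma sched_bound (σ : List Job) (hu : Unit1 σ) (s : Sched m σ) :
    ∃ j : ℕ, (j : ℝ) + (∑ i, if s i = none then (σ.get i).p else 0) ≤ cost σ s ∧
      (Finset.univ.filter fun i => s i ≠ none).card ≤ j * m := by
  classical
  have hN : Nonempty (Fin m) := ⟨⟨0, hm⟩⟩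
  let f : Fin m → ℕ := fun k => (Finset.univ.filter fun i => s i = some k).card
  have hload : ∀ k, load σ s k = (f k : ℝ) := by
    intro k
    unfold load
    have h1 : ∀ i : Fin σ.length, (if s i = some k then (σ.get i).t else 0) =
        if s i = some k then (1 : ℝ) else 0 := by
      intro i
      rw [hu _ (List.get_mem _ _)]
    rw [Finset.sum_congr rfl fun i _ => h1 i, Finset.sum_boole]
  obtain ⟨k, hk⟩ := Finite.exists_max f
  refine ⟨f k, ?_, ?_⟩
  · unfold cost
    have := load_le_sup σ s k
    rw [hload] at this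
    linarith
  · have h1 : (Finset.univ.filter fun i => s i ≠ none).card = ∑ k, f k := by
      rw [← Finset.card_biUnion]
      · congr 1
        ext i
        simp only [Finset.mem_filter, Finset.mem_univ, true_and, Finset.mem_biUnion]
        constructor
        · intro h
          obtain ⟨k, hk⟩ := Option.ne_none_iff_exists'.mp h
          exact ⟨k, hk⟩
        · rintro ⟨k, hk⟩
          rw [hk]
          simp
      · intro k _ k' _ hkk'
        simp only [Function.onFun]
        rw [Finset.disjoint_left]
        intro i hi hi'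
        rw [Finset.mem_filter] at hi hi'
        have := hi.2.symm.trans hi'.2
        exact hkk' (Option.some.inj this)
    rw [h1]
    calc ∑ k', f k' ≤ ∑ _k' : Fin m, f k := Finset.sum_le_sum fun k' _ => hk k'
      _ = f k * m := by simp [mul_comm]

include hm in
/-- Consequences of `sched_bound`. -/
lemma sched_bound' (σ : List Job) (hu : Unit1 σ) (s : Sched m σ) :
    ∃ j : ℕ, (j : ℝ) ≤ cost σ s ∧ (j = 0 → P σ ≤ cost σ s) ∧
      ∀ θ : ℝ, 0 ≤ θ → j + ((∑ i : Fin σ.length, min (σ.get i).p θ) - j * m * θ) ≤ cost σ s := by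
  obtain ⟨j, h1, h2⟩ := sched_bound hm σ hu s
  have h3 := penS_nonneg σ s
  refine ⟨j, by linarith, ?_, ?_⟩
  · rintro rfl
    rw [zero_mul] at h2
    have h4 : ∀ i, s i = none := by
      intro i
      by_contra hi
      have : i ∈ (Finset.univ.filter fun i => s i ≠ none) := by simp [hi]
      have := Finset.card_pos.mpr ⟨i, this⟩
      omega
    have h5 : P σ = ∑ i, if s i = none then (σ.get i).p else 0 := by
      unfold P T
      apply Finset.sum_congr rfl
      intro i _
      rw [if_pos (h4 i)]
    rw [h5]
    simpa using h1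
  · intro θ hθ
    have h4 : ∑ i : Fin σ.length, min (σ.get i).p θ ≤
        (∑ i, if s i = none then (σ.get i).p else 0) +
          ∑ i : Fin σ.length, if s i ≠ none then θ else 0 := by
      rw [← Finset.sum_add_distrib]
      apply Finset.sum_le_sum
      intro i _
      by_cases hi : s i = none
      · rw [if_pos hi, if_neg (by simpa using hi)]
        simp
      · rw [if_neg hi, if_pos hi]
        simp
    have h5 : (∑ i : Fin σ.length, if s i ≠ none then θ else 0) =
        ((Finset.univ.filter fun i => s i ≠ none).card : ℝ) * θ := by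
      rw [← Finset.sum_filter, Finset.sum_const, nsmul_eq_mul]
    have h6 : ((Finset.univ.filter fun i => s i ≠ none).card : ℝ) * θ ≤ (j * m : ℕ) * θ := by
      apply mul_le_mul_of_nonneg_right _ hθ
      exact_mod_cast h2
    push_cast at h6
    linarith

/-- Number of accepted jobs with penalty below `θ`. -/
noncomputable def Bad (A : Alg m) (σ : List Job) (θ : ℝ) : ℕ :=
  T (fun h j => if A h j = none ∨ θ ≤ j.p then 0 else 1) σ

lemma Bad_concat (A : Alg m) (σ : List Job) (j : Job) (θ : ℝ) :
    Bad A (σ ++ [j]) θ = Bad A σ θ + if A σ j = none ∨ θ ≤ j.p then 0 else 1 := T_concat _ _ _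

lemma Bad_le_nA (A : Alg m) (σ : List Job) (θ : ℝ) : Bad A σ θ ≤ nA A σ := by
  unfold Bad nA T
  apply Finset.sum_le_sum
  intro i _
  dsimp only
  by_cases h : A (σ.take i) (σ.get i) = none
  · rw [if_pos h, if_pos (Or.inl h)]
  · rw [if_neg h]
    split_ifs <;> simp

lemma Bad_mono (A : Alg m) (σ : List Job) {θ θ' : ℝ} (h : θ' ≤ θ) : Bad A σ θ' ≤ Bad A σ θ := by
  unfold Bad T
  apply Finset.sum_le_sum
  intro i _
  dsimp only
  by_cases h1 : A (σ.take i) (σ.get i) = none ∨ θ ≤ (σ.get i).p
  · have h2 : A (σ.take i) (σ.get i) = none ∨ θ' ≤ (σ.get i).p := by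
      rcases h1 with h1 | h1
      · exact Or.inl h1
      · exact Or.inr (h.trans h1)
    rw [if_pos h1, if_pos h2]
  · rw [if_neg h1]
    split_ifs <;> simp

lemma Bad_zero (A : Alg m) (σ : List Job) (θ : ℝ) (h : Bad A σ θ = 0) :
    ∀ i : Fin σ.length, A (σ.take i) (σ.get i) ≠ none → θ ≤ (σ.get i).p := by
  intro i hi
  unfold Bad T at h
  rw [Finset.sum_eq_zero_iff] at h
  have h1 := h i (Finset.mem_univ _)
  dsimp only at h1
  by_contra h2
  rw [if_neg (by
    rintro (h3 | h3)
    · exact hi h3
    · exact h2 h3)] at h1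
  exact one_ne_zero h1

end Algorithm

section Main

/-- The base value of `Z`. -/
noncomputable def base (c Z₀ S₀ : ℝ) : ℝ := if 2 + S₀ - c ≤ 0 then 0 else max (2 + S₀ - c) Z₀

/-- The threshold used by the algorithm. -/
noncomputable def Th (m : ℕ) (c L Z₀ S₀ W : ℝ) : ℝ :=
  if 2 + S₀ - c ≤ 0 then 1 / (2 * m) else max (thr c L Z₀ (max (2 + S₀ - c) Z₀ + W)) (1 / (2 * m))

/-- Parameter conditions. -/
structure Par (m : ℕ) (c L Z₀ Ec : ℝ) : Prop where
  hm : 1 ≤ m
  hc : 5 / 2 ≤ c
  hc' : c ≤ 27 / 10
  hEc : Ec = -c ^ 2 + 3 * c - 1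
  hEc0 : 0 < Ec
  hEm : c * (1 / (2 * m)) < Ec
  hZ : Z₀ = Ec / (c - 1)
  hZ2 : Z₀ ≤ 1 / 2
  hL : L = -log Ec / 5
  hL1 : 1 ≤ L
  hN : ∀ Z : ℝ, Z₀ ≤ Z → 1 / (2 * m) < thr c L Z₀ Z → Z + thr c L Z₀ Z ≤ 1 / 2

/-- The step for the main invariant. -/
lemma F_step {m : ℕ} {c L Z₀ Ec : ℝ} (h : Par m c L Z₀ Ec) (G : ℝ → ℝ)
    (hmono : ∀ x y, x ≤ y → G x ≤ G y)
    (hratio : ∀ θ θ', 0 < θ → 0 ≤ θ' → θ' ≤ θ → θ' / θ * G θ ≤ G θ') (Z Z' p : ℝ)
    (hZ : Z₀ ≤ Z) (hZZ : Z ≤ Z') (hZp : Z' ≤ Z + p)
    (hpΘ : p ≤ max (thr c L Z₀ Z) (1 / (2 * m)))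
    (hF : Z / c ≤ G (max (thr c L Z₀ Z) (1 / (2 * m))) + max (thr c L Z₀ Z) (1 / (2 * m))) :
    Z' / c ≤ G (max (thr c L Z₀ Z') (1 / (2 * m))) + min p (max (thr c L Z₀ Z') (1 / (2 * m))) +
      max (thr c L Z₀ Z') (1 / (2 * m)) := by
  have hc := h.hc
  have hZ₀ : 0 < Z₀ := by
    rw [h.hZ]
    exact div_pos h.hEc0 (by linarith)
  have hZ0 : 0 < Z := lt_of_lt_of_le hZ₀ hZ
  obtain ⟨d, rfl⟩ : ∃ d, Z' = Z + d := ⟨Z' - Z, by ring⟩
  have hd : 0 ≤ d := by linarith
  have hdp : d ≤ p := by linarith
  have hanti := thr_anti (c := c) (L := L) (by linarith) h.hL1 hZ₀ hZ hd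
  have hc1 : (Z + d) / c ≤ Z / c + p := by
    rw [add_div]
    have : d / c ≤ d := div_le_self hd (by linarith)
    linarith
  rcases le_or_gt (thr c L Z₀ Z) (1 / (2 * m)) with hcase | hcase
  · rw [max_eq_right hcase] at hpΘ hF
    rw [max_eq_right (hanti.trans hcase), min_eq_left hpΘ]
    linarith
  · rw [max_eq_left hcase.le] at hpΘ hF
    have hθ0 : 0 < thr c L Z₀ Z := thr_pos (by linarith) (by linarith [h.hL1]) hZ₀ hZ0
    have hθ'0 : 0 < thr c L Z₀ (Z + d) :=
      thr_pos (by linarith) (by linarith [h.hL1]) hZ₀ (by linarith)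
    have h1 := thr_step (c := c) (L := L) (f' := G (thr c L Z₀ (Z + d)) + thr c L Z₀ (Z + d))
      (by linarith) h.hL1 hZ₀ hZ hd (hdp.trans hpΘ) hF (by
        rw [mul_add]
        have h2 := hratio _ _ hθ0 hθ'0.le hanti
        have h3 : thr c L Z₀ (Z + d) / thr c L Z₀ Z * thr c L Z₀ Z = thr c L Z₀ (Z + d) := by
          field_simp
        linarith)
    have h4 : thr c L Z₀ (Z + d) ≤ max (thr c L Z₀ (Z + d)) (1 / (2 * m)) := le_max_left _ _
    have h5 := hmono _ _ h4
    have h6 : min d (thr c L Z₀ (Z + d)) ≤ min p (max (thr c L Z₀ (Z + d)) (1 / (2 * m))) :=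
      min_le_min hdp h4
    linarith

/-- The invariants. -/
structure Inv {m : ℕ} (A : Alg m) (c L Z₀ Ec : ℝ) (σ : List Job) (s : St) : Prop where
  hS : 0 ≤ s.S₀
  hW : 0 ≤ s.W
  h0 : s.a = 0 → s.W = 0 ∧ P σ = s.S₀
  hM : s.a = 0 → thr c L Z₀ Z₀ / 5 * (-log (max (1 - (c - 1) * s.S₀) Ec)) ≤
    G A σ (thr c L Z₀ Z₀)
  hF : (base c Z₀ s.S₀ + s.W) / c ≤ G A σ (Th m c L Z₀ s.S₀ s.W) + Th m c L Z₀ s.S₀ s.W
  hJ : 2 + s.S₀ + s.W - c ≤ 1 / 2 + G A σ (1 / (2 * m))
  hB : Bad A σ (Th m c L Z₀ s.S₀ s.W) = 0
  hK : s.a ≠ 0 → 1 + s.S₀ + s.W + c * ((s.a - 1) * (1 / (2 * m))) ≤ c * P σ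

lemma inv_all {m : ℕ} {c L Z₀ Ec : ℝ} (hm : 0 < m) (h : Par m c L Z₀ Ec) (σ : List Job) :
    Inv (alg m hm c (Th m c L Z₀)) c L Z₀ Ec σ (st c (Th m c L Z₀) σ) := by
  have hc := h.hc
  have hc' := h.hc'
  have hEc0 := h.hEc0
  have hL1 := h.hL1
  have hc1 : 0 < c - 1 := by linarith
  have hm0 : (0 : ℝ) < m := by exact_mod_cast hm
  have hτ : (0 : ℝ) < 1 / (2 * m) := by positivity
  have hZ₀ : 0 < Z₀ := by
    rw [h.hZ]
    exact div_pos hEc0 hc1
  have hθ₀ : 0 < thr c L Z₀ Z₀ := thr_pos (by linarith) (by linarith) hZ₀ hZ₀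
  have hθ₀v : thr c L Z₀ Z₀ = Z₀ / c / (1 + L) := by
    unfold thr
    rw [div_self hZ₀.ne', one_rpow, mul_one]
  have hθEc : thr c L Z₀ Z₀ ≤ Ec := by
    have h1 := thr_le (c := c) (L := L) (by linarith) (by linarith) hZ₀ hZ₀
    have h2 : Z₀ / 2 ≤ Ec := by
      have : Ec = Z₀ * (c - 1) := by rw [h.hZ]; field_simp
      rw [this]
      nlinarith
    linarith
  have hThτ : ∀ S₀ W : ℝ, 1 / (2 * (m : ℝ)) ≤ Th m c L Z₀ S₀ W := by
    intro S₀ W
    unfold Th
    split_ifs
    · exact le_refl _
    · exact le_max_right _ _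
  set A := alg m hm c (Th m c L Z₀) with hA
  induction σ using List.reverseRecOn with
  | nil =>
    rw [st_nil]
    have hb : base c Z₀ 0 = 0 := by
      unfold base
      rw [if_pos (by linarith)]
    have hG0 : ∀ θ, G A [] θ = 0 := fun θ => by simp [G, T_nil]
    refine ⟨le_refl _, le_refl _, fun _ => ⟨rfl, ?_⟩, fun _ => ?_, ?_, ?_, ?_, ?_⟩
    · simp [P, T_nil]
    · simp only [mul_zero, sub_zero]
      rw [hG0, max_eq_left]
      · simp
      · rw [h.hEc]
        nlinarith
    · simp only
      rw [hb, hG0]
      simp only [add_zero, zero_div, zero_add]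
      exact hτ.le.trans (hThτ 0 0)
    · simp only
      rw [hG0]
      linarith
    · simp [Bad, T_nil]
    · simp
  | append_singleton σ j ih =>
    set s := st c (Th m c L Z₀) σ with hs
    have hp := j.p_pos
    set p := j.p with hpdef
    set Θ := Th m c L Z₀ s.S₀ s.W with hΘ
    have hΘτ : 1 / (2 * (m : ℝ)) ≤ Θ := hThτ _ _
    rw [st_concat, ← hs]
    by_cases hacc : accepts c (Th m c L Z₀) s p
    · -- the job is accepted
      have hstep : step c (Th m c L Z₀) s j = ⟨s.a + 1, s.S₀, s.W⟩ := by
        unfold step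
        rw [if_pos hacc]
      have hsome : A σ j ≠ none := by
        rw [hA, Ne, alg_none]
        simpa using hacc
      have hG : ∀ θ, G A (σ ++ [j]) θ = G A σ θ := fun θ => by
        rw [G_concat, if_neg hsome, add_zero]
      have hΘp : Θ < p := hacc.1
      rw [hstep]
      refine ⟨ih.hS, ih.hW, ?_, ?_, ?_, ?_, ?_, ?_⟩
      · intro h0
        simp at h0
      · intro h0
        simp at h0
      · simp only
        rw [hG]
        exact ih.hF
      · simp only
        rw [hG]
        exact ih.hJ
      · simp only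
        rw [Bad_concat, ih.hB, if_pos (Or.inr hΘp.le)]
      · intro _
        simp only
        push_cast
        rw [P_concat, ← hpdef]
        by_cases ha : s.a = 0
        · obtain ⟨h1, h2⟩ := ih.h0 ha
          have h3 := hacc.2 ha
          rw [h1, h2, ha]
          simp only [Nat.cast_zero, zero_add, sub_self, zero_mul, mul_zero, add_zero]
          exact h3
        · have h1 := ih.hK ha
          have h2 : c * (1 / (2 * (m : ℝ))) ≤ c * p :=
            mul_le_mul_of_nonneg_left (by linarith) (by linarith)
          linarith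
    · -- the job is rejected
      have hnone : A σ j = none := by
        rw [hA, alg_none]
        exact hacc
      have hG : ∀ θ, G A (σ ++ [j]) θ = G A σ θ + min p θ := fun θ => by
        rw [G_concat, if_pos hnone]
      have hBad : ∀ θ, Bad A (σ ++ [j]) θ = Bad A σ θ := fun θ => by
        rw [Bad_concat, if_pos (Or.inl hnone), add_zero]
      have hGnn : ∀ θ, 0 ≤ θ → 0 ≤ G A σ θ := fun θ hθ => G_nonneg A σ hθ
      by_cases ha : s.a = 0
      · have hstep : step c (Th m c L Z₀) s j = ⟨s.a, s.S₀ + p, s.W⟩ := by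
          unfold step
          rw [if_neg hacc, if_pos ha]
        rw [hstep]
        obtain ⟨hW0, hP⟩ := ih.h0 ha
        have hM := ih.hM ha
        -- the two reasons for a rejection
        have hreason : p ≤ Θ ∨ c * p < 1 - (c - 1) * s.S₀ := by
          by_contra hcon
          push Not at hcon
          apply hacc
          refine ⟨hcon.1, fun _ => ?_⟩
          nlinarith [hcon.2]
        have hYE : ∀ x, (c - 1) * (2 + x - c) = Ec - (1 - (c - 1) * x) := by
          intro x
          rw [h.hEc]
          ring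
        set E := 1 - (c - 1) * s.S₀ with hE
        have hE'e : 1 - (c - 1) * (s.S₀ + p) = E - (c - 1) * p := by rw [hE]; ring
        have hZe : Z₀ * (c - 1) = Ec := by rw [h.hZ]; field_simp
        -- if `E ≥ Ec` then the second reason applies
        have hreason2 : Ec ≤ E → c * p < E := by
          intro hEE
          rcases hreason with h1 | h1
          · have h2 : 2 + s.S₀ - c ≤ 0 := by
              have := hYE s.S₀
              rw [← hE] at this
              nlinarith
            have h3 : Θ = 1 / (2 * m) := by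
              rw [hΘ]
              unfold Th
              rw [if_pos h2]
            have h4 : c * p ≤ c * (1 / (2 * m)) := by
              rw [← h3]
              exact mul_le_mul_of_nonneg_left h1 (by linarith)
            have := h.hEm
            linarith
          · exact h1
        have hpos : c * p < E → 0 < E - (c - 1) * p := by
          intro h1
          nlinarith
        have hM' : thr c L Z₀ Z₀ / 5 * (-log (max (E - (c - 1) * p) Ec)) ≤
            G A σ (thr c L Z₀ Z₀) + min p (thr c L Z₀ Z₀) := by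
          rcases le_or_gt Ec E with hEE | hEE
          · have h1 := initial_step (c := c) (E := E) (θ := thr c L Z₀ Z₀) (Ec := Ec)
              (by linarith) hc' (by linarith) rfl hp (hreason2 hEE) hθ₀ hθEc
            have h2 : thr c L Z₀ Z₀ / 5 * (log (max E Ec) - log (max (E - (c - 1) * p) Ec)) =
              thr c L Z₀ Z₀ / 5 * (-log (max (E - (c - 1) * p) Ec)) -
              thr c L Z₀ Z₀ / 5 * (-log (max E Ec)) := by ring
            rw [h2] at h1
            linarith
          · have h1 : E - (c - 1) * p ≤ Ec := by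
              have : 0 < (c - 1) * p := by positivity
              linarith
            rw [max_eq_right h1]
            rw [max_eq_right hEE.le] at hM
            have : 0 ≤ min p (thr c L Z₀ Z₀) := le_min hp.le hθ₀.le
            linarith
        -- the main invariant and the bound on the penalties
        have hFJ : (base c Z₀ (s.S₀ + p) + s.W) / c ≤ G A (σ ++ [j]) (Th m c L Z₀ (s.S₀ + p) s.W) +
              Th m c L Z₀ (s.S₀ + p) s.W ∧
            2 + (s.S₀ + p) + s.W - c ≤ 1 / 2 + G A (σ ++ [j]) (1 / (2 * m)) := by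
          rw [hG, hG, hW0]
          have hY'E := hYE (s.S₀ + p)
          rw [hE'e] at hY'E
          have hYE' := hYE s.S₀
          rw [← hE] at hYE'
          rcases le_or_gt (2 + (s.S₀ + p) - c) 0 with hY' | hY'
          · -- still no danger
            constructor
            · have hb : base c Z₀ (s.S₀ + p) = 0 := by
                unfold base
                rw [if_pos hY']
              rw [hb]
              simp only [add_zero, zero_div]
              have h1 := hThτ (s.S₀ + p) 0
              have h2 := hGnn (Th m c L Z₀ (s.S₀ + p) 0) (by linarith)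
              have h3 : 0 ≤ min p (Th m c L Z₀ (s.S₀ + p) 0) := le_min hp.le (by linarith)
              linarith
            · have h2 := hGnn (1 / (2 * m)) hτ.le
              have h3 : 0 ≤ min p (1 / (2 * (m : ℝ))) := le_min hp.le hτ.le
              linarith
          · have hY'n : ¬ (2 + (s.S₀ + p) - c ≤ 0) := not_le.mpr hY'
            have hb' : base c Z₀ (s.S₀ + p) = max (2 + (s.S₀ + p) - c) Z₀ := by
              unfold base
              rw [if_neg hY'n]
            have hTh' : Th m c L Z₀ (s.S₀ + p) 0 =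
                max (thr c L Z₀ (max (2 + (s.S₀ + p) - c) Z₀)) (1 / (2 * m)) := by
              unfold Th
              rw [if_neg hY'n, add_zero]
            have hE'Ec : E - (c - 1) * p < Ec := by
              have : 0 < (c - 1) * (2 + (s.S₀ + p) - c) := mul_pos hc1 hY'
              linarith
            by_cases hcE : c * p < E
            · -- forced rejection: `E'` is still positive
              have hE'0 := hpos hcE
              have hY'Z : 2 + (s.S₀ + p) - c < Z₀ := by
                have : (c - 1) * (2 + (s.S₀ + p) - c) < (c - 1) * Z₀ := by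
                  rw [hY'E]
                  linarith
                exact lt_of_mul_lt_mul_left this hc1.le
              rw [max_eq_right hE'Ec.le] at hM'
              constructor
              · rw [hb', hTh', max_eq_right hY'Z.le, add_zero]
                have h1 : thr c L Z₀ Z₀ ≤ max (thr c L Z₀ Z₀) (1 / (2 * m)) := le_max_left _ _
                have h2 := G_mono A σ h1
                have h3 : min p (thr c L Z₀ Z₀) ≤ min p (max (thr c L Z₀ Z₀) (1 / (2 * m))) :=
                  min_le_min_left _ h1
                have h4 : thr c L Z₀ Z₀ / 5 * (-log Ec) = thr c L Z₀ Z₀ * L := by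
                  rw [h.hL]; ring
                have h5 : Z₀ / c = thr c L Z₀ Z₀ * (1 + L) := by
                  rw [hθ₀v]
                  field_simp
                rw [h4] at hM'
                rw [h5]
                linarith
              · have h2 := hGnn (1 / (2 * m)) hτ.le
                have h3 : 0 ≤ min p (1 / (2 * (m : ℝ))) := le_min hp.le hτ.le
                have h4 := h.hZ2
                linarith
            · -- a voluntary rejection
              have hpΘ : p ≤ Θ := by
                rcases hreason with h1 | h1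
                · exact h1
                · exact absurd h1 hcE
              have hEEc : E < Ec := by
                by_contra hcon
                push Not at hcon
                exact hcE (hreason2 hcon)
              have hY : 0 < 2 + s.S₀ - c := by
                have : 0 < (c - 1) * (2 + s.S₀ - c) := by rw [hYE']; linarith
                exact (pos_iff_pos_of_mul_pos this).mp hc1
              have hYn : ¬ (2 + s.S₀ - c ≤ 0) := not_le.mpr hY
              set Z := max (2 + s.S₀ - c) Z₀ with hZdef
              have hb : base c Z₀ s.S₀ = Z := by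
                unfold base
                rw [if_neg hYn]
              have hTh : Θ = max (thr c L Z₀ Z) (1 / (2 * m)) := by
                rw [hΘ]
                unfold Th
                rw [if_neg hYn, hW0, add_zero]
              have hF := ih.hF
              rw [← hΘ, hb, hW0, add_zero, hTh] at hF
              rw [hTh] at hpΘ
              constructor
              · rw [hb', hTh', add_zero]
                refine F_step h (G A σ) (fun x y hxy => G_mono A σ hxy)
                  (fun θ θ' h1 h2 h3 => G_ratio A σ h1 h2 h3) Z _ p (le_max_right _ _)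
                  ?_ ?_ hpΘ hF
                · exact max_le_max (by linarith) le_rfl
                · apply max_le
                  · have := le_max_left (2 + s.S₀ - c) Z₀
                    linarith
                  · have := le_max_right (2 + s.S₀ - c) Z₀
                    linarith
              · have hYZ : 2 + s.S₀ - c ≤ Z := le_max_left _ _
                rcases le_or_gt (thr c L Z₀ Z) (1 / (2 * m)) with hcase | hcase
                · rw [max_eq_right hcase] at hpΘ
                  rw [min_eq_left hpΘ]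
                  have := ih.hJ
                  linarith
                · rw [max_eq_left hcase.le] at hpΘ
                  have h1 := h.hN Z (le_max_right _ _) hcase
                  have h2 := hGnn (1 / (2 * m)) hτ.le
                  have h3 : 0 ≤ min p (1 / (2 * (m : ℝ))) := le_min hp.le hτ.le
                  linarith
        refine ⟨by simp only; linarith [ih.hS], ih.hW, fun _ => ⟨hW0, ?_⟩, fun _ => ?_, hFJ.1,
          hFJ.2, ?_, fun h1 => absurd ha h1⟩
        · rw [P_concat, hP]
        · simp only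
          rw [hE'e, hG]
          exact hM'
        · simp only
          rw [hBad]
          have h1 := Bad_le_nA A σ (Th m c L Z₀ (s.S₀ + p) s.W)
          have h2 : nA A σ = s.a := nA_alg hm c (Th m c L Z₀) σ
          omega
      · have hstep : step c (Th m c L Z₀) s j = ⟨s.a, s.S₀, s.W + p⟩ := by
          unfold step
          rw [if_neg hacc, if_neg ha]
        rw [hstep]
        have hpΘ : p ≤ Θ := by
          by_contra hcon
          push Not at hcon
          exact hacc ⟨hcon, fun h1 => absurd h1 ha⟩
        have hF := ih.hF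
        have hJ := ih.hJ
        have hB := ih.hB
        have hW := ih.hW
        rw [← hΘ] at hF hB
        -- main step
        have hmain : (base c Z₀ s.S₀ + (s.W + p)) / c ≤
              G A (σ ++ [j]) (Th m c L Z₀ s.S₀ (s.W + p)) + Th m c L Z₀ s.S₀ (s.W + p) ∧
            2 + s.S₀ + (s.W + p) - c ≤ 1 / 2 + G A (σ ++ [j]) (1 / (2 * m)) ∧
            Th m c L Z₀ s.S₀ (s.W + p) ≤ Θ := by
          rw [hG, hG]
          rcases le_or_gt (2 + s.S₀ - c) 0 with hY | hY
          · have hΘv : Θ = 1 / (2 * m) := by
              rw [hΘ]; unfold Th; rw [if_pos hY]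
            have hΘ'v : Th m c L Z₀ s.S₀ (s.W + p) = 1 / (2 * m) := by
              unfold Th; rw [if_pos hY]
            rw [hΘv] at hpΘ hF
            rw [hΘ'v, hΘv, min_eq_left hpΘ]
            refine ⟨?_, by linarith, le_refl _⟩
            have h1 : (base c Z₀ s.S₀ + (s.W + p)) / c = (base c Z₀ s.S₀ + s.W) / c + p / c := by
              ring
            have h2 : p / c ≤ p := div_le_self hp.le (by linarith)
            linarith
          · have hYn : ¬ (2 + s.S₀ - c ≤ 0) := not_le.mpr hY
            have hb : base c Z₀ s.S₀ = max (2 + s.S₀ - c) Z₀ := by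
              unfold base; rw [if_neg hYn]
            set Z := max (2 + s.S₀ - c) Z₀ + s.W with hZdef
            have hZZ : Z₀ ≤ Z := by
              have := le_max_right (2 + s.S₀ - c) Z₀
              linarith
            have hΘv : Θ = max (thr c L Z₀ Z) (1 / (2 * m)) := by
              rw [hΘ]; unfold Th; rw [if_neg hYn]
            have hΘ'v : Th m c L Z₀ s.S₀ (s.W + p) = max (thr c L Z₀ (Z + p)) (1 / (2 * m)) := by
              unfold Th; rw [if_neg hYn, hZdef, add_assoc]
            have hanti := thr_anti (c := c) (L := L) (by linarith) h.hL1 hZ₀ hZZ hp.le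
            rw [hb, hΘv] at hF
            rw [hΘv] at hpΘ
            rw [hb, hΘ'v, hΘv]
            have e1 : max (2 + s.S₀ - c) Z₀ + (s.W + p) = Z + p := by rw [hZdef]; ring
            rw [e1]
            refine ⟨?_, ?_, max_le_max hanti le_rfl⟩
            · exact F_step h (G A σ) (fun x y hxy => G_mono A σ hxy)
                (fun θ θ' h1 h2 h3 => G_ratio A σ h1 h2 h3) Z (Z + p) p hZZ
                (by linarith) le_rfl hpΘ hF
            · have hYZ : 2 + s.S₀ - c + s.W ≤ Z := by
                have := le_max_left (2 + s.S₀ - c) Z₀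
                linarith
              rcases le_or_gt (thr c L Z₀ Z) (1 / (2 * m)) with hcase | hcase
              · rw [max_eq_right hcase] at hpΘ
                rw [min_eq_left hpΘ]
                linarith
              · rw [max_eq_left hcase.le] at hpΘ
                have h1 := h.hN Z hZZ hcase
                have h2 := hGnn (1 / (2 * m)) hτ.le
                have h3 : 0 ≤ min p (1 / (2 * (m : ℝ))) := le_min hp.le hτ.le
                linarith
        refine ⟨ih.hS, by simp only; linarith, fun h1 => absurd h1 ha, fun h1 => absurd h1 ha,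
          hmain.1, hmain.2.1, ?_, fun _ => ?_⟩
        · simp only
          rw [hBad]
          have := Bad_mono A σ hmain.2.2
          omega
        · simp only
          rw [P_concat, ← hpdef]
          have h1 := ih.hK ha
          have h2 : p ≤ c * p := by nlinarith
          linarith

/-- The algorithm is `c`-competitive for unit running times. -/
theorem unit_competitive {m : ℕ} {c L Z₀ Ec : ℝ} (h : Par m c L Z₀ Ec) :
    UnitCompetitive m c := by
  have hm : 0 < m := h.hm
  have hc := h.hc
  have hm0 : (0 : ℝ) < m := by exact_mod_cast hm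
  have hτ : (0 : ℝ) < 1 / (2 * m) := by positivity
  have hmτ : (m : ℝ) * (1 / (2 * m)) = 1 / 2 := by field_simp
  refine ⟨alg m hm c (Th m c L Z₀), fun σ hu => ?_⟩
  have hcost := cost_alg hm c (Th m c L Z₀) σ hu
  have inv := inv_all hm h σ
  have hnA := nA_alg hm c (Th m c L Z₀) σ
  set A := alg m hm c (Th m c L Z₀) with hA
  set s := st c (Th m c L Z₀) σ with hs
  set Θ := Th m c L Z₀ s.S₀ s.W with hΘ
  have hΘτ : 1 / (2 * (m : ℝ)) ≤ Θ := by
    rw [hΘ]
    unfold Th
    split_ifs
    · exact le_refl _
    · exact le_max_right _ _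
  set H := (s.a + m - 1) / m with hH
  have hHm : H * m ≤ s.a + m - 1 := Nat.div_mul_le_self _ _
  have hS := inv.hS
  have hW := inv.hW
  have hbase : 2 + s.S₀ - c ≤ base c Z₀ s.S₀ := by
    unfold base
    split_ifs with h1
    · exact h1
    · exact le_max_left _ _
  -- lower bounds for the truncated sums
  have hB := inv.hB
  rw [← hΘ] at hB
  have htr1 := trunc_sum A σ Θ (Bad_zero A σ Θ hB)
  have htr2 := trunc_sum A σ (1 / (2 * m)) (Bad_zero A σ _ (by
    have := Bad_mono A σ hΘτ
    omega))
  rw [hnA] at htr1 htr2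
  have hF := inv.hF
  have hJ := inv.hJ
  rw [← hΘ] at hF
  rw [div_le_iff₀ (by linarith)] at hF
  have hG2 := G_nonneg A σ hτ.le
  set g := G A σ (1 / (2 * m)) with hg
  have key : ∀ s' : Sched m σ, (H : ℝ) + (s.S₀ + s.W) ≤ c * cost σ s' := by
    intro s'
    obtain ⟨j, hj1, hj2, hj3⟩ := sched_bound' hm σ hu s'
    have hcn := cost_nonneg σ s'
    rcases Nat.eq_zero_or_pos j with hj0 | hj0
    · -- everything is rejected
      have hP := hj2 hj0
      by_cases ha : s.a = 0
      · have hH0 : H = 0 := by
          rw [hH, ha]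
          apply Nat.div_eq_of_lt
          omega
        obtain ⟨h1, h2⟩ := inv.h0 ha
        rw [hH0, h1, ← h2]
        push_cast
        nlinarith
      · have hK := inv.hK ha
        have h1 : (H : ℝ) ≤ 1 + c * ((s.a - 1) * (1 / (2 * m))) := by
          have h2 : (H : ℝ) * m ≤ s.a + m - 1 := by
            have h3 : H * m + 1 ≤ s.a + m := by omega
            have h4 : ((H * m + 1 : ℕ) : ℝ) ≤ ((s.a + m : ℕ) : ℝ) := by exact_mod_cast h3
            push_cast at h4
            linarith
          have ha1 : (1 : ℝ) ≤ s.a := by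
            have : 1 ≤ s.a := by omega
            exact_mod_cast this
          have h5 : c * ((s.a - 1) * (1 / (2 * (m : ℝ)))) = (c / 2) * ((s.a - 1) / m) := by
            field_simp
          rw [h5]
          have h6 : (H : ℝ) - 1 ≤ (s.a - 1) / m := by
            rw [le_div_iff₀ hm0]
            linarith
          have h7 : 0 ≤ ((s.a : ℝ) - 1) / m := div_nonneg (by linarith) hm0.le
          nlinarith
        have h2 : c * P σ ≤ c * cost σ s' := mul_le_mul_of_nonneg_left hP (by linarith)
        linarith
    · have hj1' : (1 : ℝ) ≤ j := by exact_mod_cast hj0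
      rcases lt_or_ge j H with hjH | hjH
      · -- fewer layers than the algorithm
        have h1 := hj3 Θ (by linarith)
        obtain ⟨d, hd⟩ : ∃ d, H = j + 1 + d := ⟨H - (j + 1), by omega⟩
        have h2 : (1 : ℝ) + d * m ≤ s.a - j * m := by
          have h3 : (j + 1 + d) * m ≤ s.a + m - 1 := by rw [← hd]; exact hHm
          have h4 : (j + 1 + d) * m + 1 ≤ s.a + m := by omega
          have h5 : (((j + 1 + d) * m + 1 : ℕ) : ℝ) ≤ ((s.a + m : ℕ) : ℝ) := by exact_mod_cast h4
          push_cast at h5
          linarith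
        have h3 : (1 + d * m) * Θ ≤ (s.a - j * m) * Θ :=
          mul_le_mul_of_nonneg_right h2 (by linarith)
        have h4 : (d : ℝ) / 2 ≤ d * m * Θ := by
          have h5 : (d : ℝ) * m * (1 / (2 * m)) ≤ d * m * Θ :=
            mul_le_mul_of_nonneg_left hΘτ (by positivity)
          have h6 : (d : ℝ) * m * (1 / (2 * m)) = d / 2 := by
            rw [mul_assoc, hmτ]; ring
          linarith
        have h5 : (j : ℝ) + (G A σ Θ + Θ + d / 2) ≤ cost σ s' := by linarith
        have h6 : c * (j + (G A σ Θ + Θ + d / 2)) ≤ c * cost σ s' :=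
          mul_le_mul_of_nonneg_left h5 (by linarith)
        have h7 : c * (j + (G A σ Θ + Θ + d / 2)) = c * j + (G A σ Θ + Θ) * c + c / 2 * d := by
          ring
        have hd0 : (0 : ℝ) ≤ d := Nat.cast_nonneg d
        have h8 : (H : ℝ) = j + 1 + d := by rw [hd]; push_cast; ring
        rw [h8]
        have h9 : (d : ℝ) ≤ c / 2 * d := by nlinarith
        have h10 : (c - 1) * 1 ≤ (c - 1) * j := mul_le_mul_of_nonneg_left hj1' (by linarith)
        linarith
      · have hjH' : (H : ℝ) ≤ j := by exact_mod_cast hjH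
        have h1 := hj3 (1 / (2 * m)) hτ.le
        have h2 : (j : ℝ) * m * (1 / (2 * m)) = j / 2 := by
          rw [mul_assoc, hmτ]; ring
        rw [h2] at h1
        have h3 : 0 ≤ (s.a : ℝ) * (1 / (2 * m)) := by positivity
        have h4 : (j : ℝ) + (g - j / 2) ≤ cost σ s' := by linarith
        rcases le_total g (j / 2) with h5 | h5
        · have h6 : c * j ≤ c * cost σ s' := mul_le_mul_of_nonneg_left hj1 (by linarith)
          nlinarith
        · have h6 : c * (j + (g - j / 2)) ≤ c * cost σ s' :=
            mul_le_mul_of_nonneg_left h4 (by linarith)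
          nlinarith
  have hopt : ((H : ℝ) + (s.S₀ + s.W)) / c ≤ opt m σ := by
    apply le_opt
    intro s'
    rw [div_le_iff₀ (by linarith)]
    have := key s'
    linarith
  rw [div_le_iff₀ (by linarith)] at hopt
  linarith

end Main

end Pool.Agent.H704.Rej
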